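import Mathlib
import Pool.Agent.R865.DS.B

set_option autoImplicit false

namespace Pool.Agent.Run7.h680.SD
open Finset Polynomial Pool.Agent.R865.DS

/-- the number of `k`-subsets of the nonzero elements with sum `x` containing `y` -/
def R (n k : ℕ) [NeZero n] (y x : ZMod n) : ℕ :=
  ((((univ.erase (0 : ZMod n)).powersetCard k).filter (fun A => ∑ t ∈ A, t = x)).filter
    (fun A => y ∈ A)).card

lemma R_zero {n : ℕ} [NeZero n] (y x : ZMod n) : R n 0 y x = 0 := by
  unfold R
  rw [Finset.card_eq_zero, Finset.filter_eq_empty_iff]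
  intro A hA
  simp only [Finset.mem_filter, Finset.mem_powersetCard] at hA
  rw [Finset.card_eq_zero.1 hA.1.2]
  simp

lemma R_succ {n : ℕ} [NeZero n] (k : ℕ) {y : ZMod n} (hy : y ≠ 0) (x : ZMod n) :
    R n (k + 1) y x + R n k y (x - y) = F n k (x - y) := by
  classical
  have h1 : F n k (x - y) = R n k y (x - y) +
      ((((univ.erase (0 : ZMod n)).powersetCard k).filter (fun A => ∑ t ∈ A, t = x - y)).filter
        (fun A => ¬ y ∈ A)).card := by
    unfold F R
    exact (Finset.card_filter_add_card_filter_not (fun A => y ∈ A)).symm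
  have h2 : R n (k + 1) y x =
      ((((univ.erase (0 : ZMod n)).powersetCard k).filter (fun A => ∑ t ∈ A, t = x - y)).filter
        (fun A => ¬ y ∈ A)).card := by
    unfold R
    symm
    apply Finset.card_bij (fun A _ => insert y A)
    · intro A hA
      simp only [Finset.mem_filter, Finset.mem_powersetCard] at hA ⊢
      obtain ⟨⟨⟨h1, h2⟩, h3⟩, h4⟩ := hA
      refine ⟨⟨⟨?_, ?_⟩, ?_⟩, Finset.mem_insert_self _ _⟩
      · exact Finset.insert_subset (Finset.mem_erase.2 ⟨hy, Finset.mem_univ _⟩) h1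
      · rw [Finset.card_insert_of_notMem h4, h2]
      · rw [Finset.sum_insert h4, h3]; ring
    · intro A hA B hB hAB
      simp only [Finset.mem_filter] at hA hB
      have := congrArg (fun S => S.erase y) hAB
      simpa [Finset.erase_insert hA.2, Finset.erase_insert hB.2] using this
    · intro B hB
      simp only [Finset.mem_filter, Finset.mem_powersetCard] at hB
      obtain ⟨⟨⟨h1, h2⟩, h3⟩, h4⟩ := hB
      refine ⟨B.erase y, ?_, Finset.insert_erase h4⟩
      simp only [Finset.mem_filter, Finset.mem_powersetCard]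
      refine ⟨⟨⟨(Finset.erase_subset _ _).trans h1, ?_⟩, ?_⟩, Finset.notMem_erase _ _⟩
      · rw [Finset.card_erase_of_mem h4, h2]; rfl
      · have := Finset.add_sum_erase B (fun t => t) h4
        rw [← h3, ← this]; ring
  rw [h1, h2, add_comm]

lemma R_eq {n : ℕ} [NeZero n] {y : ZMod n} (hy : y ≠ 0) (k : ℕ) : ∀ (x : ZMod n),
    (R n k y x : ℂ) = ∑ i ∈ range k, (-1) ^ i * (F n (k - 1 - i) (x - (i + 1 : ℕ) * y) : ℂ) := by
  induction k with
  | zero => intro x; simp [R_zero]
  | succ k ih =>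
    intro x
    have h := R_succ k hy x
    have h' : (R n (k + 1) y x : ℂ) = F n k (x - y) - R n k y (x - y) := by
      rw [← h]; push_cast; ring
    rw [h', Finset.sum_range_succ', ih, sub_eq_add_neg, add_comm, ← Finset.sum_neg_distrib]
    congr 1
    · refine Finset.sum_congr rfl fun i _ => ?_
      have e1 : k + 1 - 1 - (i + 1) = k - 1 - i := by omega
      have e2 : x - y - ((i + 1 : ℕ) : ZMod n) * y = x - ((i + 1 + 1 : ℕ) : ZMod n) * y := by
        push_cast; ring
      rw [e1, e2]; ring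
    · simp

lemma fourier {n q N : ℕ} [NeZero n] [NeZero q] (hN : 0 < N) (hn : n = N * q) (hq : q ∣ n)
    {ζ : ℂ} (hζ : IsPrimitiveRoot ζ q) (e : AddChar (ZMod n) ℂ)
    (he : ∀ y : ZMod n, e y = ζ ^ (ZMod.castHom hq (ZMod q) y).val) (m : ℕ) :
    ∑ z : ZMod n, (F n m z : ℂ) * e z =
      (-1) ^ (m % q) * (((-1) ^ (q + 1)) ^ (m / q) * ((N - 1).choose (m / q) : ℂ)) := by
  classical
  have hq0 : 0 < q := Nat.pos_of_ne_zero (NeZero.ne q)
  have h1 : ∏ y : ZMod n, (1 + C (e y) * X : ℂ[X]) = (1 - (-X) ^ q) ^ N := by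
    have h2 := prod_comp_hom (ZMod.castHom hq (ZMod q)).toAddMonoidHom
      (ZMod.castHom_surjective hq) (fun t : ZMod q => (1 + C (ζ ^ t.val) * X : ℂ[X]))
    rw [ZMod.card, ZMod.card, show n / q = N by rw [hn, Nat.mul_div_cancel _ hq0]] at h2
    rw [← prod_roots hq0 hζ, ← Pool.Agent.R865.DS.prod_val (fun i => (1 + C (ζ ^ i) * X : ℂ[X])), ← h2]
    refine Finset.prod_congr rfl fun y _ => ?_
    rw [he y]
    rfl
  rw [← Finset.mul_prod_erase univ _ (Finset.mem_univ (0 : ZMod n)), AddChar.map_zero_eq_one] at h1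
  have h3 : (1 - (-X) ^ q : ℂ[X]) = 1 + C ((-1) ^ (q + 1)) * X ^ q := by
    rw [neg_pow, C_pow, C_neg, C_1, pow_succ]; ring
  have h4 : ((1 - (-X) ^ q) ^ N : ℂ[X]) = (1 + C 1 * X) *
      ((∑ i ∈ range q, (-X) ^ i) * ∏ y ∈ range (N - 1), (1 + C ((-1) ^ (q + 1)) * X ^ q : ℂ[X])) := by
    have h5 := mul_neg_geom_sum (-X : ℂ[X]) q
    rw [sub_neg_eq_add] at h5
    rw [← mul_assoc, C_1, one_mul, h5, Finset.prod_const, card_range, ← h3, ← pow_succ',
      Nat.sub_add_cancel hN]
  rw [h4] at h1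
  have hne : (1 + C 1 * X : ℂ[X]) ≠ 0 := by
    intro h
    have := congrArg (fun P => P.coeff 0) h
    simp at this
  have h6 := mul_left_cancel₀ hne h1
  have h7 := congrArg (fun P => P.coeff m) h6
  rw [coeff_prod_one, coeff_prod_q _ _ hq0] at h7
  have h8 : ∑ A ∈ (range (N - 1)).powersetCard (m / q), ∏ _y ∈ A, ((-1 : ℂ) ^ (q + 1)) =
      ((-1) ^ (q + 1)) ^ (m / q) * ((N - 1).choose (m / q) : ℂ) := by
    rw [Finset.sum_congr rfl (g := fun _ => ((-1 : ℂ) ^ (q + 1)) ^ (m / q)), Finset.sum_const,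
      Finset.card_powersetCard, card_range, nsmul_eq_mul, mul_comm]
    intro A hA
    rw [Finset.prod_const, (Finset.mem_powersetCard.1 hA).2]
  rw [h8] at h7
  rw [← h7]
  have h9 : ∀ z : ZMod n, (F n m z : ℂ) * e z =
      ∑ A ∈ ((univ.erase (0 : ZMod n)).powersetCard m).filter (fun A => ∑ y ∈ A, y = z),
        ∏ y ∈ A, e y := by
    intro z
    have hpe : ∀ A : Finset (ZMod n), ∏ y ∈ A, e y = e (∑ y ∈ A, y) := by
      intro A
      induction A using Finset.induction_on with
      | empty => simp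
      | insert a s ha ih => rw [Finset.prod_insert ha, Finset.sum_insert ha, ih,
          AddChar.map_add_eq_mul]
    rw [Finset.sum_congr rfl (g := fun _ => e z) (fun A hA => by
      rw [hpe, (Finset.mem_filter.1 hA).2]), Finset.sum_const, nsmul_eq_mul, F]
  rw [Finset.sum_congr rfl (fun z _ => h9 z)]
  exact Finset.sum_fiberwise _ _ _

end Pool.Agent.Run7.h680.SD
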