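import Mathlib
import Pool.Agent.Run7.h680.SDA

set_option autoImplicit false

namespace Pool.Agent.Run7.h680.SD
open Finset Polynomial Pool.Agent.R865.DS

/-- functions on `ZMod n` are determined by the sums against all characters -/
lemma dft_inj {n : ℕ} [NeZero n] (f g : ZMod n → ℂ)
    (h : ∀ e : AddChar (ZMod n) ℂ, ∑ z, f z * e z = ∑ z, g z * e z) : f = g := by
  apply (ZMod.dft (N := n) (E := ℂ)).injective
  funext k
  rw [ZMod.dft_apply, ZMod.dft_apply]
  have h1 := h (AddChar.mulShift ZMod.stdAddChar (-k))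
  simp only [AddChar.mulShift_apply] at h1
  have e1 : ∀ f : ZMod n → ℂ, ∑ j : ZMod n, ZMod.stdAddChar (-(j * k)) • f j =
      ∑ z, f z * ZMod.stdAddChar (-k * z) := by
    intro f
    refine Finset.sum_congr rfl fun j _ => ?_
    rw [smul_eq_mul, mul_comm, show -(j * k) = -k * j by ring]
  rw [e1, e1, h1]

lemma char_root {n : ℕ} [NeZero n] (e : AddChar (ZMod n) ℂ) :
    ∃ q : ℕ, ∃ hq : q ∣ n, IsPrimitiveRoot (e 1) q ∧ ∀ [NeZero q], ∀ y : ZMod n,
      e y = (e 1) ^ (ZMod.castHom hq (ZMod q) y).val := by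
  have h1 : (e 1) ^ n = 1 := by
    rw [← AddChar.map_nsmul_eq_pow]
    simp
  refine ⟨orderOf (e 1), orderOf_dvd_of_pow_eq_one h1, IsPrimitiveRoot.orderOf _, ?_⟩
  intro _ y
  have h2 : e y = (e 1) ^ y.val := by
    rw [← AddChar.map_nsmul_eq_pow]
    simp
  rw [h2]
  have h3 : (ZMod.castHom (orderOf_dvd_of_pow_eq_one h1) (ZMod (orderOf (e 1))) y) =
      ((y.val : ℕ) : ZMod (orderOf (e 1))) := by
    conv_lhs => rw [← ZMod.natCast_zmod_val y]
    rw [map_natCast]
  rw [h3, ZMod.val_natCast, pow_mod_orderOf]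

/-- the multiples of `p` modulo `p ^ 2` -/
lemma mult_eq {p : ℕ} (hp : 0 < p) [NeZero p] [NeZero (p ^ 2)] (hpn : p ∣ p ^ 2) :
    (univ.filter (fun z : ZMod (p ^ 2) => ZMod.castHom hpn (ZMod p) z = 0)) =
      (range p).image (fun i : ℕ => ((p * i : ℕ) : ZMod (p ^ 2))) := by
  ext z
  simp only [Finset.mem_filter, Finset.mem_univ, true_and, Finset.mem_image, Finset.mem_range]
  constructor
  · intro h
    have h1 : ((z.val : ℕ) : ZMod p) = 0 := by
      rw [← h]
      conv_rhs => rw [← ZMod.natCast_zmod_val z]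
      rw [map_natCast]
    rw [ZMod.natCast_eq_zero_iff] at h1
    obtain ⟨i, hi⟩ := h1
    refine ⟨i, ?_, ?_⟩
    · have := ZMod.val_lt z
      rw [hi, sq] at this
      exact Nat.lt_of_mul_lt_mul_left this
    · rw [← hi, ZMod.natCast_zmod_val]
  · rintro ⟨i, _, rfl⟩
    rw [map_natCast, ZMod.natCast_eq_zero_iff]
    exact dvd_mul_right _ _

lemma sum_mult {p : ℕ} (hp : 0 < p) [NeZero p] [NeZero (p ^ 2)] (hpn : p ∣ p ^ 2)
    (e : AddChar (ZMod (p ^ 2)) ℂ) :
    ∑ z ∈ univ.filter (fun z : ZMod (p ^ 2) => ZMod.castHom hpn (ZMod p) z = 0), e z =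
      ∑ i ∈ range p, ((e 1) ^ p) ^ i := by
  rw [mult_eq hp hpn, Finset.sum_image]
  · refine Finset.sum_congr rfl fun i _ => ?_
    rw [← pow_mul, ← AddChar.map_nsmul_eq_pow]
    simp
  · intro a ha b hb hab
    have ha' := Finset.mem_range.1 ha
    have hb' := Finset.mem_range.1 hb
    have h := (ZMod.natCast_eq_natCast_iff _ _ _).1 hab
    have h1 : p * a < p ^ 2 := by rw [sq]; exact Nat.mul_lt_mul_of_pos_left ha' hp
    have h2 : p * b < p ^ 2 := by rw [sq]; exact Nat.mul_lt_mul_of_pos_left hb' hp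
    exact Nat.eq_of_mul_eq_mul_left hp (Nat.ModEq.eq_of_lt_of_lt h h1 h2)

/-- the integer `(-1)^(m/p) C(p-1, m/p) - 1` -/
def H (p m : ℕ) : ℤ := (-1) ^ (m / p) * ((p - 1).choose (m / p) : ℤ) - 1

theorem F_formula {p : ℕ} (hp : p.Prime) [NeZero p] [NeZero (p ^ 2)] (hpn : p ∣ p ^ 2) (m : ℕ)
    (hm : m < p ^ 2) : ∃ α : ℂ, ∀ z : ZMod (p ^ 2),
      (F (p ^ 2) m z : ℂ) = α + (-1) ^ m * ((if ZMod.castHom hpn (ZMod p) z = 0 then
        (H p m : ℂ) / p else 0) + (if z = 0 then 1 else 0)) := by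
  have hp0 : 0 < p := hp.pos
  have hpC : (p : ℂ) ≠ 0 := by exact_mod_cast hp0.ne'
  set α : ℂ := (((p ^ 2 - 1).choose m : ℂ) - (-1) ^ m * (H p m + 1)) / (p : ℂ) ^ 2 with hα
  refine ⟨α, ?_⟩
  have hfun : (fun z : ZMod (p ^ 2) => (F (p ^ 2) m z : ℂ)) = (fun z =>
      α + (-1) ^ m * ((if ZMod.castHom hpn (ZMod p) z = 0 then
        (H p m : ℂ) / p else 0) + (if z = 0 then 1 else 0))) := by
    apply dft_inj
    intro e
    have hR : ∑ z, (α + (-1) ^ m * ((if ZMod.castHom hpn (ZMod p) z = 0 then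
        (H p m : ℂ) / p else 0) + (if z = 0 then 1 else 0))) * e z =
        α * ∑ z, e z + (-1) ^ m * ((H p m : ℂ) / p * ∑ i ∈ range p, ((e 1) ^ p) ^ i + 1) := by
      have h0 : ∑ z : ZMod (p ^ 2), (if z = 0 then (1 : ℂ) else 0) * e z = 1 := by
        rw [Finset.sum_eq_single (0 : ZMod (p ^ 2))]
        · simp
        · intro b _ hb; simp [hb]
        · intro h; exact absurd (Finset.mem_univ _) h
      rw [← sum_mult hp0 hpn e]
      have hR' : ∑ z, (α + (-1) ^ m * ((if ZMod.castHom hpn (ZMod p) z = 0 then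
        (H p m : ℂ) / p else 0) + (if z = 0 then 1 else 0))) * e z =
        α * ∑ z, e z + (-1) ^ m * ((H p m : ℂ) / p *
          ∑ z ∈ univ.filter (fun z : ZMod (p ^ 2) => ZMod.castHom hpn (ZMod p) z = 0), e z +
          ∑ z : ZMod (p ^ 2), (if z = 0 then (1 : ℂ) else 0) * e z) := by
        rw [Finset.sum_filter, Finset.mul_sum, Finset.mul_sum, ← Finset.sum_add_distrib,
          Finset.mul_sum, ← Finset.sum_add_distrib]
        refine Finset.sum_congr rfl fun z _ => ?_
        split_ifs <;> ring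
      rw [hR', h0]
    rw [hR]
    obtain ⟨q, hq, hζ, he⟩ := char_root e
    have hqp := (Nat.dvd_prime_pow hp).1 hq
    obtain ⟨j, hj, rfl⟩ := hqp
    have : NeZero (p ^ j) := ⟨(pow_pos hp0 j).ne'⟩
    have hf := fourier (N := p ^ (2 - j)) (pow_pos hp0 _) (by rw [← pow_add]; congr 1; omega)
      hq hζ e (fun y => he y) m
    rw [hf]
    have hne1 : j ≠ 0 → ∑ z, e z = 0 := by
      intro hj0
      apply AddChar.sum_eq_zero_of_ne_one
      intro h
      have h1 : e 1 = 1 := by rw [h]; rfl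
      rw [h1] at hζ
      have := (IsPrimitiveRoot.one).unique hζ
      have h2 := Nat.one_lt_pow hj0 hp.one_lt
      omega
    have hcases : j = 0 ∨ j = 1 ∨ j = 2 := by omega
    rcases hcases with rfl | rfl | rfl
    · -- trivial character
      have h1 : e 1 = 1 := by
        have := hζ.pow_eq_one
        simpa using this
      have hez : ∀ z, e z = 1 := by
        intro z
        rw [he z, h1, one_pow]
      simp only [hez, h1, one_pow, Finset.sum_const, Finset.card_univ, ZMod.card, card_range,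
        pow_zero, Nat.mod_one, Nat.div_one]
      rw [hα]
      push_cast
      simp only [nsmul_eq_mul, mul_one]
      push_cast
      field_simp
      norm_num
    · rw [hne1 (by norm_num)]
      have h1 : (e 1) ^ p = 1 := by
        have := hζ.pow_eq_one
        simpa using this
      simp only [h1, one_pow, Finset.sum_const, card_range]
      rw [pow_one]
      simp only [nsmul_eq_mul, mul_one, mul_zero, zero_add]
      rw [div_mul_cancel₀ _ hpC]
      unfold H
      push_cast
      have h2 : (-1 : ℂ) ^ m = (-1) ^ (m % p) * ((-1) ^ p) ^ (m / p) := by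
        rw [← pow_mul, ← pow_add, Nat.mod_add_div]
      rw [h2, pow_succ, mul_pow]
      ring
    · rw [hne1 (by norm_num)]
      have h1 : ∑ i ∈ range p, ((e 1) ^ p) ^ i = 0 := by
        have h3 : IsPrimitiveRoot ((e 1) ^ p) p := by
          have := hζ.pow (pow_pos hp0 2) (show p ^ 2 = p * p by ring)
          exact this
        exact h3.geom_sum_eq_zero hp.one_lt
      rw [h1, Nat.mod_eq_of_lt hm, Nat.div_eq_of_lt hm]
      simp
  intro z
  exact congrFun hfun z

end Pool.Agent.Run7.h680.SD
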