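import Mathlib
import Pool.Agent.Run7.h680.SDB

set_option autoImplicit false

namespace Pool.Agent.Run7.h680.SD
open Finset Polynomial Pool.Agent.R865.DS

/-- the integer that governs the number of blocks through `b` -/
def T (p k : ℕ) (b a : ℤ) : ℤ :=
  ∑ i ∈ range k, ((if (p : ℤ) ∣ a - (i + 1) * b then H p (k - 1 - i) else 0) +
    (if (p : ℤ) ^ 2 ∣ a - (i + 1) * b then (p : ℤ) else 0))

theorem R_formula {p : ℕ} (hp : p.Prime) [NeZero (p ^ 2)] {k : ℕ} (hk : 1 ≤ k) (hk2 : k ≤ p ^ 2) :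
    ∃ A : ℂ, ∀ a b : ℤ, (b : ZMod (p ^ 2)) ≠ 0 →
      (R (p ^ 2) k (b : ZMod (p ^ 2)) (a : ZMod (p ^ 2)) : ℂ) =
        A + (-1) ^ (k - 1) * ((T p k b a : ℂ) / p) := by
  have hpn : p ∣ p ^ 2 := dvd_pow_self p (by norm_num)
  have : NeZero p := ⟨hp.ne_zero⟩
  have hpC : (p : ℂ) ≠ 0 := by exact_mod_cast hp.ne_zero
  have hF := fun (m : ℕ) (hm : m < p ^ 2) => F_formula hp hpn m hm
  choose! α hα using hF
  refine ⟨∑ i ∈ range k, (-1) ^ i * α (k - 1 - i), ?_⟩
  intro a b hb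
  rw [R_eq hb, T]
  push_cast
  rw [Finset.sum_div, Finset.mul_sum, ← Finset.sum_add_distrib]
  refine Finset.sum_congr rfl fun i hi => ?_
  have hi' := Finset.mem_range.1 hi
  have hcast : ((a : ZMod (p ^ 2)) - ((i + 1 : ℕ) : ZMod (p ^ 2)) * (b : ZMod (p ^ 2))) =
      ((a - (i + 1) * b : ℤ) : ZMod (p ^ 2)) := by
    push_cast; ring
  have hc' : ((a : ZMod (p ^ 2)) - ((i : ZMod (p ^ 2)) + 1) * (b : ZMod (p ^ 2))) =
      ((a - (i + 1) * b : ℤ) : ZMod (p ^ 2)) := by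
    push_cast; ring
  have h1 := hα (k - 1 - i) (by omega) ((a - (i + 1) * b : ℤ) : ZMod (p ^ 2))
  rw [hc', h1, map_intCast]
  have e1 : (((a - (i + 1) * b : ℤ) : ZMod p) = 0) ↔ (p : ℤ) ∣ a - (i + 1) * b :=
    ZMod.intCast_zmod_eq_zero_iff_dvd _ _
  have e2 : (((a - (i + 1) * b : ℤ) : ZMod (p ^ 2)) = 0) ↔ (p : ℤ) ^ 2 ∣ a - (i + 1) * b := by
    rw [ZMod.intCast_zmod_eq_zero_iff_dvd]
    push_cast
    rfl
  simp only [e1, e2]
  have hs : (-1 : ℂ) ^ (k - 1) = (-1) ^ i * (-1) ^ (k - 1 - i) := by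
    rw [← pow_add]; congr 1; omega
  rw [hs]
  split_ifs <;> push_cast <;> field_simp <;> ring

/-- equality of the numbers of blocks through two points -/
theorem R_eq_iff {p : ℕ} (hp : p.Prime) [NeZero (p ^ 2)] {k : ℕ} (hk : 1 ≤ k) (hk2 : k ≤ p ^ 2)
    (a b c : ℤ) (hb : (b : ZMod (p ^ 2)) ≠ 0) (hc : (c : ZMod (p ^ 2)) ≠ 0) :
    R (p ^ 2) k (b : ZMod (p ^ 2)) (a : ZMod (p ^ 2)) =
      R (p ^ 2) k (c : ZMod (p ^ 2)) (a : ZMod (p ^ 2)) ↔ T p k b a = T p k c a := by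
  obtain ⟨A, hA⟩ := R_formula hp hk hk2
  have hpC : (p : ℂ) ≠ 0 := by exact_mod_cast hp.ne_zero
  have h1 := hA a b hb
  have h2 := hA a c hc
  have hs : ((-1 : ℂ) ^ (k - 1)) ≠ 0 := pow_ne_zero _ (by norm_num)
  constructor
  · intro h
    rw [h, h2] at h1
    have h3 := mul_left_cancel₀ hs (add_left_cancel h1)
    have h4 : (T p k c a : ℂ) = (T p k b a : ℂ) := by
      field_simp at h3
      exact h3
    exact_mod_cast h4.symm
  · intro h
    rw [← h, ← h1] at h2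
    exact_mod_cast h2.symm

lemma sum_alt {P : ℕ} : ∀ q : ℕ, q ≤ P → (P : ℤ) * ∑ a ∈ range q, (-1) ^ a * (P.choose a : ℤ) =
    (-1) ^ (q + 1) * (q * (P.choose q : ℤ)) := by
  intro q
  induction q with
  | zero => intro _; simp
  | succ q ih =>
    intro hq
    rw [Finset.sum_range_succ, mul_add, ih (by omega)]
    have h := Nat.choose_succ_right_eq P q
    have h' : (P.choose (q + 1) : ℤ) * (q + 1) = P.choose q * (P - q) := by
      have : ((P - q : ℕ) : ℤ) = (P : ℤ) - q := by push_cast [Nat.cast_sub (show q ≤ P by omega)]; rfl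
      rw [← this]
      exact_mod_cast h
    push_cast
    have h2 : (-1 : ℤ) ^ (q + 1 + 1) * (((q : ℤ) + 1) * (P.choose (q + 1) : ℤ)) =
        (-1) ^ (q + 1 + 1) * ((P.choose q : ℤ) * (P - q)) := by
      rw [← h']; ring
    rw [h2]
    ring

lemma sum_blocks {p : ℕ} (f : ℕ → ℤ) (q : ℕ) :
    ∑ m ∈ range (p * q), f m = ∑ a ∈ range q, ∑ b ∈ range p, f (p * a + b) := by
  induction q with
  | zero => simp
  | succ q ih => rw [Nat.mul_succ, Finset.sum_range_add, ih, Finset.sum_range_succ]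

lemma H_val {p a b : ℕ} (hb : b < p) : H p (p * a + b) = (-1) ^ a * ((p - 1).choose a : ℤ) - 1 := by
  unfold H
  have : (p * a + b) / p = a := by
    rw [Nat.mul_add_div (by omega), Nat.div_eq_of_lt hb, add_zero]
  rw [this]

/-- the closed form -/
lemma closed {p q r : ℕ} (hp : 0 < p) (hr : r < p) (hq : q ≤ p - 1) :
    ∑ m ∈ range (p * q + r), (if m % p = r then 0 else H p m) + (p : ℤ) * q =
      ((-1) ^ q * ((p - 1).choose q : ℤ) - 1) * ((r : ℤ) - q) := by
  rw [Finset.sum_range_add, sum_blocks]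
  have h1 : ∀ a ∈ range q, ∑ b ∈ range p, (if (p * a + b) % p = r then 0 else H p (p * a + b)) =
      ((p : ℤ) - 1) * ((-1) ^ a * ((p - 1).choose a : ℤ) - 1) := by
    intro a _
    have h2 : ∀ b ∈ range p, (if (p * a + b) % p = r then 0 else H p (p * a + b)) =
        ((-1) ^ a * ((p - 1).choose a : ℤ) - 1) -
          (if b = r then ((-1) ^ a * ((p - 1).choose a : ℤ) - 1) else 0) := by
      intro b hb
      have hb' := Finset.mem_range.1 hb
      rw [H_val hb', Nat.mul_add_mod, Nat.mod_eq_of_lt hb']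
      split_ifs <;> ring
    rw [Finset.sum_congr rfl h2, Finset.sum_sub_distrib, Finset.sum_const, card_range,
      Finset.sum_ite_eq' (range p) r, if_pos (Finset.mem_range.2 hr)]
    simp only [nsmul_eq_mul]
    ring
  have h3 : ∀ b ∈ range r, (if (p * q + b) % p = r then 0 else H p (p * q + b)) =
      ((-1) ^ q * ((p - 1).choose q : ℤ) - 1) := by
    intro b hb
    have hb' := Finset.mem_range.1 hb
    rw [H_val (by omega), Nat.mul_add_mod, Nat.mod_eq_of_lt (by omega), if_neg (by omega)]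
  rw [Finset.sum_congr rfl h1, Finset.sum_congr rfl h3, ← Finset.mul_sum, Finset.sum_sub_distrib,
    Finset.sum_const, Finset.sum_const, card_range, card_range]
  have h4 := sum_alt (P := p - 1) q hq
  have h5 : ((p - 1 : ℕ) : ℤ) = (p : ℤ) - 1 := by push_cast [Nat.cast_sub hp]; rfl
  rw [h5] at h4
  simp only [nsmul_eq_mul]
  rw [mul_sub, h4]
  ring

end Pool.Agent.Run7.h680.SD
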