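import Mathlib
import Pool.Agent.Run7.h680.SDC

set_option autoImplicit false

namespace Pool.Agent.Run7.h680.SD
open Finset

lemma T_eq {p k : ℕ} {a b : ℤ} (P1 P2 : ℕ → Prop) [DecidablePred P1] [DecidablePred P2]
    (h1 : ∀ i < k, ((p : ℤ) ∣ a - (i + 1) * b ↔ P1 i))
    (h2 : ∀ i < k, ((p : ℤ) ^ 2 ∣ a - (i + 1) * b ↔ P2 i)) :
    T p k b a = ∑ i ∈ range k, (if P1 i then H p (k - 1 - i) else 0) +
      p * (((range k).filter P2).card : ℤ) := by
  unfold T
  rw [Finset.sum_add_distrib]
  congr 1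
  · refine Finset.sum_congr rfl fun i hi => ?_
    simp only [h1 i (Finset.mem_range.1 hi)]
  · rw [Finset.sum_congr rfl (g := fun i => if P2 i then (p : ℤ) else 0), ← Finset.sum_filter,
      Finset.sum_const, nsmul_eq_mul, mul_comm]
    intro i hi
    simp only [h2 i (Finset.mem_range.1 hi)]

lemma dvd1 {p : ℕ} (hp : p.Prime) {u : ℤ} (hu : ¬ (p : ℤ) ∣ u) (c : ℤ) :
    (p : ℤ) ∣ u * c ↔ (p : ℤ) ∣ c := by
  have hpZ : Prime (p : ℤ) := Nat.prime_iff_prime_int.1 hp
  constructor
  · intro h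
    exact (hpZ.dvd_mul.1 h).resolve_left hu
  · intro h
    exact Dvd.dvd.mul_left h u

lemma dvd2 {p : ℕ} (hp : p.Prime) {u : ℤ} (hu : ¬ (p : ℤ) ∣ u) (c : ℤ) :
    (p : ℤ) ^ 2 ∣ u * c ↔ (p : ℤ) ^ 2 ∣ c := by
  have hpZ : Prime (p : ℤ) := Nat.prime_iff_prime_int.1 hp
  constructor
  · intro h
    exact (IsCoprime.pow_left (m := 2) ((hpZ.irreducible.coprime_iff_not_dvd).2 hu)).dvd_of_dvd_mul_left h
  · intro h
    exact Dvd.dvd.mul_left h u

/-- all points lie in the same number of blocks -/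
def Cst (p k : ℕ) (a : ℤ) : Prop :=
  ∀ b c : ℤ, ¬ (p : ℤ) ^ 2 ∣ b → ¬ (p : ℤ) ^ 2 ∣ c → T p k b a = T p k c a

lemma ndvd_sq {p : ℕ} {a : ℤ} (h : ¬ (p : ℤ) ∣ a) : ¬ (p : ℤ) ^ 2 ∣ a :=
  fun h2 => h ((dvd_pow_self (p : ℤ) (by norm_num)).trans h2)

lemma card_of_T {p A B : ℕ} (hp : 0 < p) {S : ℤ} (h : S + (p : ℤ) * A = S + p * B) : A = B := by
  have h1 := add_left_cancel h
  have h2 := mul_left_cancel₀ (show (p : ℤ) ≠ 0 by exact_mod_cast hp.ne') h1
  exact_mod_cast h2

theorem L1 {p k : ℕ} (hp : p.Prime) {a : ℤ} (ha : ¬ (p : ℤ) ∣ a) (hk : 1 ≤ k)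
    (hk2 : k < p ^ 2 - 1) : ¬ Cst p k a := by
  intro hC
  have hp2 := hp.two_le
  have hpZ : Prime (p : ℤ) := Nat.prime_iff_prime_int.1 hp
  have hna : ¬ (p : ℤ) ∣ -a := fun h => ha ((dvd_neg).1 h)
  have h1p : ¬ (p : ℤ) ∣ (1 + p) * a := by
    intro h
    rcases hpZ.dvd_mul.1 h with h | h
    · have : (p : ℤ) ∣ 1 := (Int.dvd_add_left (dvd_refl _)).1 h
      exact hpZ.not_dvd_one this
    · exact ha h
  have hn1p : ¬ (p : ℤ) ∣ (1 + p) * (-a) := by
    intro h; apply h1p; rw [mul_neg, dvd_neg] at h; exact h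
  -- first pair
  have e1 := T_eq (p := p) (k := k) (a := a) (b := a) (fun i => p ∣ i) (fun i => p ^ 2 ∣ i)
    (by
      intro i _
      rw [show a - ((i : ℤ) + 1) * a = (-a) * (i : ℤ) by ring, dvd1 hp hna]
      exact Int.natCast_dvd_natCast)
    (by
      intro i _
      rw [show a - ((i : ℤ) + 1) * a = (-a) * (i : ℤ) by ring, dvd2 hp hna]
      exact_mod_cast Int.natCast_dvd_natCast (m := p ^ 2) (n := i))
  have e2 := T_eq (p := p) (k := k) (a := a) (b := (1 + p) * a) (fun i => p ∣ i)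
    (fun i => p ^ 2 ∣ i + p * (i + 1))
    (by
      intro i _
      rw [show a - ((i : ℤ) + 1) * ((1 + p) * a) = (-a) * ((i + p * (i + 1) : ℕ) : ℤ) by
        push_cast; ring, dvd1 hp hna, Int.natCast_dvd_natCast]
      exact (Nat.dvd_add_left (dvd_mul_right _ _)))
    (by
      intro i _
      rw [show a - ((i : ℤ) + 1) * ((1 + p) * a) = (-a) * ((i + p * (i + 1) : ℕ) : ℤ) by
        push_cast; ring, dvd2 hp hna]
      exact_mod_cast Int.natCast_dvd_natCast (m := p ^ 2) (n := i + p * (i + 1)))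
  have h1 := hC a ((1 + p) * a) (ndvd_sq ha) (ndvd_sq h1p)
  rw [e1, e2] at h1
  have h2 := card_of_T hp.pos h1
  have h3 : 0 < ((range k).filter (fun i => p ^ 2 ∣ i)).card :=
    Finset.card_pos.2 ⟨0, by simp; omega⟩
  rw [h2] at h3
  obtain ⟨i, hi⟩ := Finset.card_pos.1 h3
  rw [Finset.mem_filter, Finset.mem_range] at hi
  have h4 := Nat.le_of_dvd (by positivity) hi.2
  have h5 : p - 2 < k := by
    by_contra hcon
    obtain ⟨P, rfl⟩ : ∃ P, p = P + 2 := ⟨p - 2, by omega⟩
    have h6 : i + 1 ≤ P := by omega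
    nlinarith
  -- second pair
  have e3 := T_eq (p := p) (k := k) (a := a) (b := -a) (fun i => p ∣ i + 2)
    (fun i => p ^ 2 ∣ i + 2)
    (by
      intro i _
      rw [show a - ((i : ℤ) + 1) * (-a) = a * ((i + 2 : ℕ) : ℤ) by push_cast; ring, dvd1 hp ha]
      exact Int.natCast_dvd_natCast)
    (by
      intro i _
      rw [show a - ((i : ℤ) + 1) * (-a) = a * ((i + 2 : ℕ) : ℤ) by push_cast; ring, dvd2 hp ha]
      exact_mod_cast Int.natCast_dvd_natCast (m := p ^ 2) (n := i + 2))
  have e4 := T_eq (p := p) (k := k) (a := a) (b := (1 + p) * (-a)) (fun i => p ∣ i + 2)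
    (fun i => p ^ 2 ∣ i + 2 + p * (i + 1))
    (by
      intro i _
      rw [show a - ((i : ℤ) + 1) * ((1 + p) * (-a)) = a * ((i + 2 + p * (i + 1) : ℕ) : ℤ) by
        push_cast; ring, dvd1 hp ha, Int.natCast_dvd_natCast]
      exact (Nat.dvd_add_left (dvd_mul_right _ _)))
    (by
      intro i _
      rw [show a - ((i : ℤ) + 1) * ((1 + p) * (-a)) = a * ((i + 2 + p * (i + 1) : ℕ) : ℤ) by
        push_cast; ring, dvd2 hp ha]
      exact_mod_cast Int.natCast_dvd_natCast (m := p ^ 2) (n := i + 2 + p * (i + 1)))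
  have h7 := hC (-a) ((1 + p) * (-a)) (ndvd_sq hna) (ndvd_sq hn1p)
  rw [e3, e4] at h7
  have h8 := card_of_T hp.pos h7
  have h9 : 0 < ((range k).filter (fun i => p ^ 2 ∣ i + 2 + p * (i + 1))).card := by
    refine Finset.card_pos.2 ⟨p - 2, ?_⟩
    rw [Finset.mem_filter, Finset.mem_range]
    refine ⟨h5, ?_⟩
    obtain ⟨P, rfl⟩ : ∃ P, p = P + 2 := ⟨p - 2, by omega⟩
    rw [Nat.add_sub_cancel]
    exact ⟨1, by ring⟩
  rw [← h8] at h9
  obtain ⟨i', hi'⟩ := Finset.card_pos.1 h9
  rw [Finset.mem_filter, Finset.mem_range] at hi'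
  have := Nat.le_of_dvd (by omega) hi'.2
  omega

/-- the difference of the two main sums -/
lemma VU {p k : ℕ} (hp : 0 < p) (hk2 : k < p ^ 2) :
    ∑ i ∈ range k, H p (k - 1 - i) - ∑ i ∈ range k, (if p ∣ i + 1 then H p (k - 1 - i) else 0) +
      (p : ℤ) * (k / p : ℕ) =
      ((-1) ^ (k / p) * ((p - 1).choose (k / p) : ℤ) - 1) * (((k % p : ℕ) : ℤ) - (k / p : ℕ)) := by
  have hq : k / p ≤ p - 1 := by
    have : k / p < p := by rw [Nat.div_lt_iff_lt_mul hp, ← sq]; exact hk2
    omega
  rw [← closed hp (Nat.mod_lt k hp) hq, Nat.div_add_mod k p, ← Finset.sum_sub_distrib,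
    ← Finset.sum_range_reflect (fun m => if m % p = k % p then 0 else H p m) k]
  congr 1
  refine Finset.sum_congr rfl fun i hi => ?_
  have hi' := Finset.mem_range.1 hi
  have h : (k - 1 - i) % p = k % p ↔ p ∣ i + 1 := by
    have h1 := Nat.modEq_iff_dvd' (n := p) (show k - 1 - i ≤ k by omega)
    rw [show k - (k - 1 - i) = i + 1 by omega] at h1
    exact h1
  simp only [h]
  split_ifs <;> ring

/-- the four values for `a = p a'` -/
theorem L2 {p k : ℕ} (hp : p.Prime) (hodd : p ≠ 2) {a : ℤ} (ha : ¬ (p : ℤ) ∣ a) (hk : 1 ≤ k)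
    (hk2 : k < p ^ 2 - 1) : ¬ Cst p k (p * a) := by
  intro hC
  have hp2 := hp.two_le
  have hpZ : Prime (p : ℤ) := Nat.prime_iff_prime_int.1 hp
  have hp0 : (p : ℤ) ≠ 0 := hpZ.ne_zero
  have hna : ¬ (p : ℤ) ∣ -a := fun h => ha ((dvd_neg).1 h)
  have hpa : ¬ (p : ℤ) ^ 2 ∣ p * a := by
    intro h
    rw [sq] at h
    exact ha ((mul_dvd_mul_iff_left hp0).1 h)
  have hpna : ¬ (p : ℤ) ^ 2 ∣ p * (-a) := by
    intro h
    rw [sq] at h
    exact hna ((mul_dvd_mul_iff_left hp0).1 h)
  -- b = a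
  have e1 := T_eq (p := p) (k := k) (a := p * a) (b := a) (fun i => p ∣ i + 1)
    (fun i => i + 1 = p)
    (by
      intro i _
      rw [show p * a - ((i : ℤ) + 1) * a = a * (p - ((i + 1 : ℕ) : ℤ)) by push_cast; ring, dvd1 hp ha,
        dvd_sub_right (dvd_refl _)]
      exact Int.natCast_dvd_natCast)
    (by
      intro i hi
      rw [show p * a - ((i : ℤ) + 1) * a = a * (p - ((i + 1 : ℕ) : ℤ)) by push_cast; ring, dvd2 hp ha]
      constructor
      · intro h
        have h1 : (p : ℤ) - ((i + 1 : ℕ) : ℤ) = 0 := by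
          apply Int.eq_zero_of_abs_lt_dvd h
          rw [abs_lt]
          have h3 : ((i + 1 : ℕ) : ℤ) < (p : ℤ) ^ 2 := by
            exact_mod_cast (show i + 1 < p ^ 2 by omega)
          have h4 : (p : ℤ) ≤ (p : ℤ) ^ 2 := by
            exact_mod_cast Nat.le_self_pow (by norm_num) p
          constructor
          · push_cast at h3 ⊢
            have : (0 : ℤ) ≤ p := by positivity
            linarith
          · push_cast at h3 ⊢
            have : (0 : ℤ) ≤ i := by positivity
            linarith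
        omega
      · intro h
        rw [h, sub_self]
        exact dvd_zero _)
  -- b = -a
  have e2 := T_eq (p := p) (k := k) (a := p * a) (b := -a) (fun i => p ∣ i + 1)
    (fun i => p ^ 2 ∣ p + (i + 1))
    (by
      intro i _
      rw [show p * a - ((i : ℤ) + 1) * (-a) = a * ((p + (i + 1) : ℕ) : ℤ) by push_cast; ring,
        dvd1 hp ha, Int.natCast_dvd_natCast]
      exact Nat.dvd_add_right (dvd_refl _))
    (by
      intro i _
      rw [show p * a - ((i : ℤ) + 1) * (-a) = a * ((p + (i + 1) : ℕ) : ℤ) by push_cast; ring,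
        dvd2 hp ha]
      exact_mod_cast Int.natCast_dvd_natCast (m := p ^ 2) (n := p + (i + 1)))
  -- b = p a
  have e3 := T_eq (p := p) (k := k) (a := p * a) (b := p * a) (fun i => True)
    (fun i => p ∣ i)
    (by
      intro i _
      refine ⟨fun _ => trivial, fun _ => ?_⟩
      exact ⟨a - (i + 1) * a, by ring⟩)
    (by
      intro i _
      rw [show p * a - ((i : ℤ) + 1) * (p * a) = p * ((-a) * (i : ℤ)) by ring, sq,
        mul_dvd_mul_iff_left hp0, dvd1 hp hna]
      exact Int.natCast_dvd_natCast)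
  -- b = - p a
  have e4 := T_eq (p := p) (k := k) (a := p * a) (b := p * (-a)) (fun i => True)
    (fun i => p ∣ i + 2)
    (by
      intro i _
      refine ⟨fun _ => trivial, fun _ => ?_⟩
      exact ⟨a + (i + 1) * a, by ring⟩)
    (by
      intro i _
      rw [show p * a - ((i : ℤ) + 1) * (p * (-a)) = p * (a * ((i + 2 : ℕ) : ℤ)) by
        push_cast; ring, sq, mul_dvd_mul_iff_left hp0, dvd1 hp ha]
      exact Int.natCast_dvd_natCast)
  have hVU := VU (p := p) (k := k) hp.pos (by omega)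
  simp only [if_true] at e3 e4
  have h12 := hC a (-a) (ndvd_sq ha) (ndvd_sq hna)
  rw [e1, e2] at h12
  have c12 := card_of_T hp.pos h12
  have h34 := hC (p * a) (p * (-a)) hpa hpna
  rw [e3, e4] at h34
  have c34 := card_of_T hp.pos h34
  have h13 := hC (p * a) a hpa (ndvd_sq ha)
  rw [e3, e1] at h13
  have hN0 : 0 < ((range k).filter (fun i => p ∣ i)).card :=
    Finset.card_pos.2 ⟨0, by simp; omega⟩
  rcases Nat.lt_or_ge k p with hkp | hkp
  · -- k < p
    rw [Nat.div_eq_of_lt hkp] at hVU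
    simp only [pow_zero, Nat.choose_zero_right, Nat.cast_one, mul_one, sub_self, zero_mul,
      Nat.cast_zero, mul_zero, add_zero] at hVU
    have h5 : ((range k).filter (fun i => i + 1 = p)).card = 0 := by
      rw [Finset.card_eq_zero, Finset.filter_eq_empty_iff]
      intro i hi
      have := Finset.mem_range.1 hi
      omega
    rw [h5] at h13
    have h6 : (p : ℤ) * (((range k).filter (fun i => p ∣ i)).card : ℤ) = 0 := by
      push_cast at h13
      linarith
    rcases mul_eq_zero.1 h6 with h7 | h7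
    · exact hp0 h7
    · have : ((range k).filter (fun i => p ∣ i)).card = 0 := by exact_mod_cast h7
      omega
  · -- k ≥ p
    have h5 : ((range k).filter (fun i => i + 1 = p)).card = 1 := by
      rw [Finset.card_eq_one]
      refine ⟨p - 1, ?_⟩
      ext i
      simp only [Finset.mem_filter, Finset.mem_range, Finset.mem_singleton]
      omega
    rw [h5] at c12
    have h6 : 0 < ((range k).filter (fun i => p ^ 2 ∣ p + (i + 1))).card := by omega
    obtain ⟨i, hi⟩ := Finset.card_pos.1 h6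
    rw [Finset.mem_filter, Finset.mem_range] at hi
    have h7 := Nat.le_of_dvd (by omega) hi.2
    have h8 : p * (p - 1) ≤ k := by
      obtain ⟨P, rfl⟩ : ∃ P, p = P + 1 := ⟨p - 1, by omega⟩
      rw [Nat.add_sub_cancel]
      nlinarith
    have h9 : k / p = p - 1 := by
      have h10 : k / p < p := by rw [Nat.div_lt_iff_lt_mul hp.pos, ← sq]; omega
      have h11 : p - 1 ≤ k / p := by rw [Nat.le_div_iff_mul_le hp.pos, mul_comm]; exact h8
      omega
    have hev : Even (p - 1) := by
      have := hp.eq_two_or_odd'.resolve_left hodd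
      rcases this with ⟨t, ht⟩
      exact ⟨t, by omega⟩
    rw [h9, hev.neg_one_pow, Nat.choose_self] at hVU
    simp only [Nat.cast_one, mul_one, sub_self, zero_mul] at hVU
    rw [h5] at h13
    have h14 : ((range k).filter (fun i => p ∣ i)).card = p := by
      have h15 : (p : ℤ) * (((range k).filter (fun i => p ∣ i)).card : ℤ) =
          p * p := by
        have h16 : ((p - 1 : ℕ) : ℤ) = (p : ℤ) - 1 := by push_cast [Nat.cast_sub hp.one_le]; rfl
        rw [h16] at hVU
        push_cast at h13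
        linarith
      exact_mod_cast mul_left_cancel₀ hp0 h15
    have h17 : ((range k).filter (fun i => p ∣ i + 2)).card ≤ p - 1 := by
      have h18 : ((range k).filter (fun i => p ∣ i + 2)).card ≤ (Finset.Icc 1 (p - 1)).card := by
        apply Finset.card_le_card_of_injOn (fun i => (i + 2) / p)
        · intro i hi
          rw [Finset.mem_coe, Finset.mem_filter, Finset.mem_range] at hi
          rw [Finset.mem_coe, Finset.mem_Icc]
          obtain ⟨hi1, t, ht⟩ := hi
          simp only [ht, Nat.mul_div_cancel_left _ hp.pos]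
          constructor
          · rcases Nat.eq_zero_or_pos t with h | h
            · subst h; omega
            · exact h
          · by_contra hcon
            have : p * p ≤ p * t := Nat.mul_le_mul_left p (by omega)
            rw [← sq] at this
            omega
        · intro i hi j hj hij
          rw [Finset.mem_coe, Finset.mem_filter] at hi hj
          simp only at hij
          have h1 := Nat.div_mul_cancel hi.2
          have h2 := Nat.div_mul_cancel hj.2
          rw [hij] at h1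
          omega
      rw [Nat.card_Icc] at h18
      omega
    omega

end Pool.Agent.Run7.h680.SD
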