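import Mathlib
import Pool.Agent.Run7.h680.SDD
import Pool.Agent.R865.DS.C
import Pool.Agent.R865.DS.G

set_option autoImplicit false

namespace Pool.Agent.Run7.h680.SD
open Finset Pool.Agent.R865.DS

theorem L3 {p k : ℕ} (hp : p.Prime) (hodd : p ≠ 2) (hk2 : k < p ^ 2 - 1) :
    Cst p k 0 ↔ (k < p ∨ p ^ 2 - p ≤ k ∨ (p + 1) ∣ k) := by
  have hp2 := hp.two_le
  have hpZ : Prime (p : ℤ) := Nat.prime_iff_prime_int.1 hp
  have hp0 : (p : ℤ) ≠ 0 := hpZ.ne_zero
  set U : ℤ := ∑ i ∈ range k, (if p ∣ i + 1 then H p (k - 1 - i) else 0) with hU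
  set V : ℤ := ∑ i ∈ range k, H p (k - 1 - i) with hV
  have hVU := VU (p := p) (k := k) hp.pos (by omega)
  have hcount : ((range k).filter (fun i => p ∣ i + 1)).card = k / p := by
    rw [← Nat.card_multiples k p]
  -- units
  have hunit : ∀ b : ℤ, ¬ (p : ℤ) ∣ b → T p k b 0 = U := by
    intro b hb
    have hnb : ¬ (p : ℤ) ∣ -b := fun h => hb ((dvd_neg).1 h)
    have e1 := T_eq (p := p) (k := k) (a := 0) (b := b) (fun i => p ∣ i + 1)
      (fun i => False)
      (by
        intro i _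
        rw [show 0 - ((i : ℤ) + 1) * b = (-b) * ((i + 1 : ℕ) : ℤ) by push_cast; ring, dvd1 hp hnb]
        exact Int.natCast_dvd_natCast)
      (by
        intro i hi
        rw [show 0 - ((i : ℤ) + 1) * b = (-b) * ((i + 1 : ℕ) : ℤ) by push_cast; ring, dvd2 hp hnb]
        refine ⟨fun h => ?_, fun h => h.elim⟩
        have h1 : p ^ 2 ∣ i + 1 := by exact_mod_cast h
        have := Nat.le_of_dvd (by omega) h1
        omega)
    rw [e1]
    simp [hU]
  -- multiples of p
  have hmult : ∀ b : ℤ, ¬ (p : ℤ) ∣ b → T p k (p * b) 0 = V + p * (k / p : ℕ) := by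
    intro b hb
    have hnb : ¬ (p : ℤ) ∣ -b := fun h => hb ((dvd_neg).1 h)
    have e1 := T_eq (p := p) (k := k) (a := 0) (b := p * b) (fun i => True)
      (fun i => p ∣ i + 1)
      (by
        intro i _
        refine ⟨fun _ => trivial, fun _ => ⟨- ((i + 1) * b), by ring⟩⟩)
      (by
        intro i hi
        rw [show 0 - ((i : ℤ) + 1) * (p * b) = p * ((-b) * ((i + 1 : ℕ) : ℤ)) by push_cast; ring,
          sq, mul_dvd_mul_iff_left hp0, dvd1 hp hnb]
        exact Int.natCast_dvd_natCast)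
    rw [e1, hcount]
    simp [hV]
  have h1 : ¬ (p : ℤ) ∣ 1 := hpZ.not_dvd_one
  have key : Cst p k 0 ↔ V + p * (k / p : ℕ) = U := by
    constructor
    · intro hC
      rw [← hunit 1 h1, ← hmult 1 h1]
      apply hC
      · intro h
        rw [sq] at h
        exact h1 ((mul_dvd_mul_iff_left hp0).1 h)
      · exact ndvd_sq h1
    · intro h b c hb hc
      have hval : ∀ b : ℤ, ¬ (p : ℤ) ^ 2 ∣ b → T p k b 0 = U := by
        intro b hb
        by_cases hpb : (p : ℤ) ∣ b
        · obtain ⟨b', rfl⟩ := hpb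
          rw [hmult b', h]
          intro h2
          apply hb
          rw [sq]
          exact (mul_dvd_mul_iff_left hp0).2 h2
        · exact hunit b hpb
      rw [hval b hb, hval c hc]
  rw [key]
  have h3 : V + p * (k / p : ℕ) = U ↔
      ((-1) ^ (k / p) * ((p - 1).choose (k / p) : ℤ) - 1) *
        (((k % p : ℕ) : ℤ) - (k / p : ℕ)) = 0 := by
    rw [← hVU]
    constructor
    · intro h; linarith
    · intro h; linarith
  rw [h3, mul_eq_zero]
  have hkp : k / p < p := by rw [Nat.div_lt_iff_lt_mul hp.pos, ← sq]; omega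
  have hdm := Nat.div_add_mod k p
  have hmod := Nat.mod_lt k hp.pos
  have hev : Even (p - 1) := by
    have := hp.eq_two_or_odd'.resolve_left hodd
    rcases this with ⟨t, ht⟩
    exact ⟨t, by omega⟩
  have hA : ((-1) ^ (k / p) * ((p - 1).choose (k / p) : ℤ) - 1) = 0 ↔ (k < p ∨ p ^ 2 - p ≤ k) := by
    have hB : ((-1) ^ (k / p) * ((p - 1).choose (k / p) : ℤ) - 1) = 0 ↔
        (k / p = 0 ∨ p - 1 = k / p) := by
      constructor
      · intro h
        rw [← Nat.choose_eq_one_iff]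
        rcases neg_one_pow_eq_or ℤ (k / p) with hs | hs
        · rw [hs] at h
          have : ((p - 1).choose (k / p) : ℤ) = 1 := by linarith
          exact_mod_cast this
        · rw [hs] at h
          have h0 : (0 : ℤ) ≤ ((p - 1).choose (k / p) : ℤ) := by positivity
          linarith
      · rintro (h | h)
        · rw [h]; simp
        · rw [← h, hev.neg_one_pow, Nat.choose_self]; simp
    rw [hB]
    apply or_congr
    · rw [Nat.div_eq_zero_iff]
      constructor
      · rintro (h | h)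
        · omega
        · exact h
      · intro h; exact Or.inr h
    · constructor
      · intro h
        rw [← h] at hdm
        have : p * (p - 1) = p ^ 2 - p := by rw [Nat.mul_sub, mul_one, sq]
        omega
      · intro h
        have h5 : p - 1 ≤ k / p := by
          rw [Nat.le_div_iff_mul_le hp.pos, Nat.sub_mul, one_mul, ← sq]
          exact h
        omega
  rw [hA, or_assoc]
  refine or_congr_right (or_congr_right ?_)
  constructor
  · intro h
    have h6 : k % p = k / p := by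
      have : ((k % p : ℕ) : ℤ) = (k / p : ℕ) := by linarith
      exact_mod_cast this
    refine ⟨k / p, ?_⟩
    rw [h6] at hdm
    rw [← hdm]
    have : (p * (k / p) + k / p) / p = k / p := by rw [hdm]
    rw [this]
    ring
  · rintro ⟨t, ht⟩
    have ht2 : t < p := by
      by_contra hcon
      have h7 : (p + 1) * p ≤ (p + 1) * t := Nat.mul_le_mul_left _ (by omega)
      have h8 : (p + 1) * p = p ^ 2 + p := by ring
      omega
    have h9 : k = p * t + t := by rw [ht]; ring
    have h10 : k / p = t := by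
      rw [h9, Nat.mul_add_div hp.pos, Nat.div_eq_of_lt ht2, add_zero]
    have h11 : k % p = t := by rw [h9, Nat.mul_add_mod, Nat.mod_eq_of_lt ht2]
    rw [h10, h11, sub_self]

/-- the blocks -/
def Blocks (n k : ℕ) [NeZero n] (x : ZMod n) : Finset (Finset (ZMod n)) :=
  ((univ.erase (0 : ZMod n)).powersetCard k).filter (fun A => ∑ t ∈ A, t = x)

/-- 1-design on the nonzero elements -/
def IsOneDesign (n k : ℕ) [NeZero n] (x : ZMod n) : Prop :=
  (Blocks n k x).Nonempty ∧
    ∃ r : ℕ, ∀ y : ZMod n, y ≠ 0 → ((Blocks n k x).filter (fun A => y ∈ A)).card = r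

lemma cst_iff {p : ℕ} (hp : p.Prime) [NeZero (p ^ 2)] {k : ℕ} (hk : 1 ≤ k) (hk2 : k ≤ p ^ 2)
    (a : ℤ) : (∃ r : ℕ, ∀ y : ZMod (p ^ 2), y ≠ 0 →
      ((Blocks (p ^ 2) k (a : ZMod (p ^ 2))).filter (fun A => y ∈ A)).card = r) ↔ Cst p k a := by
  have hz : ∀ b : ℤ, ((b : ZMod (p ^ 2)) ≠ 0 ↔ ¬ (p : ℤ) ^ 2 ∣ b) := by
    intro b
    rw [Ne, ZMod.intCast_zmod_eq_zero_iff_dvd]
    push_cast
    rfl
  constructor
  · rintro ⟨r, hr⟩ b c hb hc
    rw [← R_eq_iff hp hk hk2 a b c ((hz b).2 hb) ((hz c).2 hc)]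
    exact (hr _ ((hz b).2 hb)).trans (hr _ ((hz c).2 hc)).symm
  · intro hC
    refine ⟨R (p ^ 2) k ((1 : ℤ) : ZMod (p ^ 2)) (a : ZMod (p ^ 2)), ?_⟩
    intro y hy
    have h1 : ¬ (p : ℤ) ^ 2 ∣ 1 := by
      have hpZ : Prime (p : ℤ) := Nat.prime_iff_prime_int.1 hp
      exact ndvd_sq hpZ.not_dvd_one
    have hy2 : (((y.val : ℕ) : ℤ) : ZMod (p ^ 2)) = y := by
      rw [Int.cast_natCast, ZMod.natCast_zmod_val]
    have hy3 : ((((y.val : ℕ) : ℤ)) : ZMod (p ^ 2)) ≠ 0 := by rw [hy2]; exact hy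
    have h2 := (R_eq_iff hp hk hk2 a ((y.val : ℕ) : ℤ) 1 hy3 ((hz 1).2 h1)).2
      (hC _ _ ((hz _).1 hy3) h1)
    rw [← h2, hy2]
    rfl

end Pool.Agent.Run7.h680.SD
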