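import Mathlib

set_option autoImplicit false

/-!
Group ring computations for quasiregular collineation groups of type (h).
-/

namespace Run7.h680.TypeH

open Finset MonoidAlgebra

section Basic

variable {R : Type*} [CommRing R] {G : Type*} [CommGroup G]

/-- The involution `g ↦ g⁻¹` of the group ring. -/
noncomputable def sg (R : Type*) [CommRing R] (G : Type*) [CommGroup G] :
    MonoidAlgebra R G →+* MonoidAlgebra R G :=
  MonoidAlgebra.mapDomainRingHom R (invMonoidHom : G →* G)

lemma sg_single (g : G) (a : R) : sg R G (single g a) = single g⁻¹ a := by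
  simp [sg]

lemma coeff_sg (x : MonoidAlgebra R G) (g : G) : (sg R G x).coeff g = x.coeff g⁻¹ := by
  classical
  induction x using MonoidAlgebra.induction_linear with
  | zero => simp
  | add x y hx hy => rw [map_add, coeff_add, coeff_add, Finsupp.add_apply, Finsupp.add_apply, hx, hy]
  | single a b =>
    rw [sg_single, coeff_single, coeff_single, Finsupp.single_apply, Finsupp.single_apply]
    congr 1
    exact propext ⟨fun h => by rw [← h, inv_inv], fun h => by rw [h, inv_inv]⟩

lemma sg_sg (x : MonoidAlgebra R G) : sg R G (sg R G x) = x := by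
  ext g
  rw [coeff_sg, coeff_sg, inv_inv]

end Basic

section Frobenius

variable {G : Type*} [CommGroup G]

lemma pow_eq_sg (r f : ℕ) [Fact r.Prime] (hG : ∀ g : G, g ^ (r ^ f) = g⁻¹)
    (x : MonoidAlgebra (ZMod r) G) : x ^ (r ^ f) = sg (ZMod r) G x := by
  have hchar : CharP (MonoidAlgebra (ZMod r) G) r := by
    refine charP_of_injective_algebraMap (R := ZMod r) (A := MonoidAlgebra (ZMod r) G) ?_ r
    exact (algebraMap (ZMod r) (MonoidAlgebra (ZMod r) G)).injective
  induction x using MonoidAlgebra.induction_linear with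
  | zero =>
    rw [map_zero, zero_pow]
    exact (pow_pos (Fact.out : r.Prime).pos f).ne'
  | add x y hx hy => rw [map_add, add_pow_char_pow, hx, hy]
  | single a b =>
    rw [sg_single, single_pow, hG, ZMod.pow_card_pow]

/-- If `-1` is a power of `r` modulo the exponent of `G` then the group ring over `ZMod r` has no
nonzero element with `x * x⁻ = 0`. -/
theorem eq_zero_of_mul_sg (r f : ℕ) [Fact r.Prime] (hf : 0 < f)
    (hG : ∀ g : G, g ^ (r ^ f) = g⁻¹)
    (x : MonoidAlgebra (ZMod r) G) (h : x * sg (ZMod r) G x = 0) : x = 0 := by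
  have h1 := pow_eq_sg r f hG x
  have h2 : x ^ (r ^ f * r ^ f) = x := by
    rw [pow_mul, h1, pow_eq_sg r f hG, sg_sg]
  have h3 : x ^ (r ^ f + 1) = 0 := by
    rw [pow_succ, h1, mul_comm, h]
  have h4 : r ^ f + 1 ≤ r ^ f * r ^ f := by
    have : 2 ≤ r ^ f := by
      calc 2 ≤ r := (Fact.out : r.Prime).two_le
        _ = r ^ 1 := (pow_one r).symm
        _ ≤ r ^ f := Nat.pow_le_pow_right (Fact.out : r.Prime).pos hf
    nlinarith
  rw [← h2]
  exact pow_eq_zero_of_le h4 h3

/-- The integral version. -/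
theorem dvd_of_mul_sg (r f : ℕ) (hr : r.Prime) (hf : 0 < f)
    (hG : ∀ g : G, g ^ (r ^ f) = g⁻¹) (x y : MonoidAlgebra ℤ G)
    (h : x * sg ℤ G x = (r : MonoidAlgebra ℤ G) * y) (g : G) : (r : ℤ) ∣ x.coeff g := by
  have : Fact r.Prime := ⟨hr⟩
  set φ := MonoidAlgebra.mapRingHom G (Int.castRingHom (ZMod r)) with hφ
  have hcomm : ∀ z : MonoidAlgebra ℤ G, φ (sg ℤ G z) = sg (ZMod r) G (φ z) := by
    intro z
    ext g
    rw [coeff_sg, hφ, coeff_mapRingHom, coeff_mapRingHom, coeff_sg]
  have h1 : φ x * sg (ZMod r) G (φ x) = 0 := by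
    rw [← hcomm, ← map_mul, h, map_mul, map_natCast]
    have : ((r : ℕ) : MonoidAlgebra (ZMod r) G) = 0 := by
      rw [MonoidAlgebra.natCast_def]
      simp
    rw [this, zero_mul]
  have h2 := eq_zero_of_mul_sg r f hf hG (φ x) h1
  have h3 : (φ x).coeff g = 0 := by rw [h2]; simp
  rw [hφ, coeff_mapRingHom] at h3
  simpa [ZMod.intCast_zmod_eq_zero_iff_dvd] using h3

lemma coeff_natCast_mul (c : ℕ) (x : MonoidAlgebra ℤ G) (g : G) :
    ((c : MonoidAlgebra ℤ G) * x).coeff g = c * x.coeff g := by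
  rw [MonoidAlgebra.natCast_def, coeff_single_one_mul]

lemma coeff_intCast_mul (c : ℤ) (x : MonoidAlgebra ℤ G) (g : G) :
    ((c : MonoidAlgebra ℤ G) * x).coeff g = c * x.coeff g := by
  rw [MonoidAlgebra.intCast_def, coeff_single_one_mul]
  simp

/-- Iterated integral version. -/
theorem pow_dvd_of_mul_sg (r f : ℕ) (hr : r.Prime) (hf : 0 < f)
    (hG : ∀ g : G, g ^ (r ^ f) = g⁻¹) (e : ℕ) : ∀ (x y : MonoidAlgebra ℤ G),
    (x * sg ℤ G x = ((r ^ e : ℕ) : MonoidAlgebra ℤ G) ^ 2 * y) → ∀ g : G, ((r ^ e : ℕ) : ℤ) ∣ x.coeff g := by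
  classical
  induction e with
  | zero => intro x y _ g; simp
  | succ e ih =>
    intro x y h g
    have h1 : ∀ g : G, (r : ℤ) ∣ x.coeff g := by
      refine dvd_of_mul_sg r f hr hf hG x ((r : MonoidAlgebra ℤ G) ^ (2 * e + 1) * y) ?_
      rw [h]
      push_cast
      ring
    -- divide by `r`
    let x' : MonoidAlgebra ℤ G := MonoidAlgebra.ofCoeff (x.coeff.mapRange (fun z => z / (r : ℤ)) (by simp))
    have hx' : x = (r : MonoidAlgebra ℤ G) * x' := by
      ext g
      rw [coeff_natCast_mul]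
      have : x'.coeff g = x.coeff g / (r : ℤ) := by simp [x']
      rw [this, Int.mul_ediv_cancel' (h1 g)]
    have hr0 : (r : ℤ) ≠ 0 := by exact_mod_cast hr.ne_zero
    have hcancel : ∀ u v : MonoidAlgebra ℤ G, (r : MonoidAlgebra ℤ G) * u = (r : MonoidAlgebra ℤ G) * v → u = v := by
      intro u v huv
      ext g
      have := congrArg (fun z => z.coeff g) huv
      simp only [coeff_natCast_mul] at this
      exact mul_left_cancel₀ hr0 this
    have h2 : x' * sg ℤ G x' = ((r ^ e : ℕ) : MonoidAlgebra ℤ G) ^ 2 * y := by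
      apply hcancel
      apply hcancel
      have h3 : sg ℤ G x = (r : MonoidAlgebra ℤ G) * sg ℤ G x' := by
        rw [hx', map_mul, map_natCast]
      calc (r : MonoidAlgebra ℤ G) * ((r : MonoidAlgebra ℤ G) * (x' * sg ℤ G x'))
          = ((r : MonoidAlgebra ℤ G) * x') * ((r : MonoidAlgebra ℤ G) * sg ℤ G x') := by ring
        _ = x * sg ℤ G x := by rw [← hx', ← h3]
        _ = _ := by rw [h]; push_cast; ring
    have h4 := ih x' y h2 g
    rw [hx', coeff_natCast_mul, pow_succ]
    push_cast at h4 ⊢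
    rw [mul_comm]
    exact mul_dvd_mul_left _ h4

end Frobenius

end Run7.h680.TypeH
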