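import Mathlib
import Pool.Agent.Run7.h680.Alg

set_option autoImplicit false
set_option linter.unusedSectionVars false

/-!
Group ring computations for quasiregular collineation groups of type (h), second part.
-/

namespace Run7.h680.TypeH

open Finset MonoidAlgebra

section Ind

variable {G : Type*} [CommGroup G] [Fintype G] [DecidableEq G]

/-- The element of the group ring attached to a finite set. -/
noncomputable def ind (S : Finset G) : MonoidAlgebra ℤ G := ∑ g ∈ S, single g 1

lemma coeff_ind (S : Finset G) (g : G) : (ind S).coeff g = if g ∈ S then 1 else 0 := by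
  rw [ind, coeff_sum, Finsupp.finsetSum_apply]
  simp only [coeff_single, Finsupp.single_apply]
  rw [Finset.sum_ite_eq' S g (fun _ => (1 : ℤ))]

/-- The augmentation. -/
noncomputable def aug (G : Type*) [CommGroup G] : MonoidAlgebra ℤ G →+* ℤ :=
  MonoidAlgebra.liftNCRingHom (RingHom.id ℤ) (1 : G →* ℤ) (fun _ _ => Commute.all _ _)

lemma aug_single (g : G) (a : ℤ) : aug G (single g a) = a := by
  rw [aug, liftNCRingHom_single]
  simp

lemma aug_eq_sum (x : MonoidAlgebra ℤ G) : aug G x = ∑ g, x.coeff g := by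
  induction x using MonoidAlgebra.induction_linear with
  | zero => simp
  | add x y hx hy =>
    rw [map_add, hx, hy, ← Finset.sum_add_distrib]
    rfl
  | single a b =>
    rw [aug_single]
    simp only [coeff_single, Finsupp.single_apply]
    rw [Finset.sum_ite_eq Finset.univ a (fun _ => b)]
    simp

lemma aug_ind (S : Finset G) : aug G (ind S) = S.card := by
  rw [ind, map_sum]
  simp only [aug_single]
  simp

lemma sg_ind (S : Finset G) : sg ℤ G (ind S) = ∑ g ∈ S, single g⁻¹ 1 := by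
  rw [ind, map_sum]
  simp only [sg_single]

lemma single_mul_ind (g : G) (S : Finset G) :
    single g (1 : ℤ) * ind S = ∑ h ∈ S, single (g * h) 1 := by
  rw [ind, Finset.mul_sum]
  simp only [single_mul_single, mul_one]

lemma single_mul_univ (g : G) : single g (1 : ℤ) * ind (univ : Finset G) = ind univ := by
  rw [single_mul_ind, ind]
  exact Fintype.sum_equiv (Equiv.mulLeft g) _ _ (fun _ => rfl)

lemma ind_mul_univ (S : Finset G) : ind S * ind (univ : Finset G) = (S.card : MonoidAlgebra ℤ G) * ind univ := by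
  rw [ind, Finset.sum_mul]
  simp only [single_mul_univ]
  simp

/-- The finite set of elements of a subgroup. -/
noncomputable def fs (H : Subgroup G) : Finset G := by
  classical exact univ.filter (fun g => g ∈ H)

lemma mem_fs (H : Subgroup G) (g : G) : g ∈ fs H ↔ g ∈ H := by
  simp [fs]

lemma card_fs (H : Subgroup G) : (fs H).card = Nat.card H := by
  classical
  rw [fs, Nat.card_eq_fintype_card, Fintype.card_subtype]

lemma single_mul_fs (H : Subgroup G) (g : G) (hg : g ∈ H) :
    single g (1 : ℤ) * ind (fs H) = ind (fs H) := by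
  rw [single_mul_ind, ind]
  refine Finset.sum_nbij' (fun h => g * h) (fun h => g⁻¹ * h) ?_ ?_ ?_ ?_ ?_
  · intro h hh; rw [mem_fs] at hh ⊢; exact H.mul_mem hg hh
  · intro h hh; rw [mem_fs] at hh ⊢; exact H.mul_mem (H.inv_mem hg) hh
  · intro h _; simp
  · intro h _; simp
  · intro h _; rfl

lemma fs_mul_fs (H : Subgroup G) :
    ind (fs H) * ind (fs H) = ((Nat.card H : ℕ) : MonoidAlgebra ℤ G) * ind (fs H) := by
  nth_rewrite 1 [ind]
  rw [Finset.sum_mul, Finset.sum_congr rfl (fun g hg => single_mul_fs H g ((mem_fs H g).mp hg)),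
    Finset.sum_const, card_fs, nsmul_eq_mul]

lemma sg_fs (H : Subgroup G) : sg ℤ G (ind (fs H)) = ind (fs H) := by
  ext g
  rw [coeff_sg, coeff_ind, coeff_ind]
  have h1 : g⁻¹ ∈ fs H ↔ g ∈ fs H := by rw [mem_fs, mem_fs]; exact inv_mem_iff
  by_cases h : g ∈ fs H
  · rw [if_pos h, if_pos (h1.mpr h)]
  · rw [if_neg h, if_neg (fun h' => h (h1.mp h'))]

lemma sg_univ : sg ℤ G (ind (univ : Finset G)) = ind univ := by
  ext g
  rw [coeff_sg, coeff_ind, coeff_ind, if_pos (mem_univ _), if_pos (mem_univ _)]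

lemma fs_mul_fs_of_disjoint (H K : Subgroup G) (hd : H ⊓ K = ⊥)
    (hc : Nat.card H * Nat.card K = Fintype.card G) :
    ind (fs H) * ind (fs K) = ind univ := by
  have hinj : Set.InjOn (fun p : G × G => p.1 * p.2) ((fs H ×ˢ fs K : Finset (G × G)) : Set (G × G)) := by
    intro p hp q hq hpq
    rw [Finset.mem_coe, Finset.mem_product, mem_fs, mem_fs] at hp hq
    have h1 : q.1⁻¹ * p.1 = q.2 * p.2⁻¹ := by
      have hpq' : p.1 * p.2 = q.1 * q.2 := hpq
      rw [inv_mul_eq_iff_eq_mul, ← mul_assoc, ← hpq', mul_inv_cancel_right]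
    have h2 : q.1⁻¹ * p.1 ∈ H ⊓ K :=
      ⟨H.mul_mem (H.inv_mem hq.1) hp.1, by rw [h1]; exact K.mul_mem hq.2 (K.inv_mem hp.2)⟩
    have h3 := h2
    rw [hd, Subgroup.mem_bot] at h2
    rw [h1, hd, Subgroup.mem_bot] at h3
    rw [inv_mul_eq_one] at h2
    rw [mul_inv_eq_one] at h3
    exact Prod.ext h2.symm h3.symm
  have himg : (fs H ×ˢ fs K).image (fun p : G × G => p.1 * p.2) = univ := by
    apply Finset.eq_univ_of_card
    rw [Finset.card_image_of_injOn hinj, Finset.card_product, card_fs, card_fs, hc]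
  calc ind (fs H) * ind (fs K)
      = ∑ p ∈ fs H ×ˢ fs K, single (p.1 * p.2) 1 := by
        rw [ind, ind, Finset.sum_mul_sum, Finset.sum_product]
        simp only [single_mul_single, mul_one]
    _ = ∑ g ∈ (fs H ×ˢ fs K).image (fun p : G × G => p.1 * p.2), single g 1 := by
        rw [Finset.sum_image hinj]
    _ = ind univ := by rw [himg, ind]

lemma coeff_mul_sg_one (x : MonoidAlgebra ℤ G) :
    (x * sg ℤ G x).coeff 1 = ∑ g, x.coeff g ^ 2 := by
  rw [coeff_mul_apply_left, Finsupp.sum_fintype]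
  · apply Finset.sum_congr rfl
    intro g _
    rw [coeff_sg, mul_one, inv_inv, pow_two]
  · intro g; simp

/-- The main inequality. -/
lemma main_ineq (x : MonoidAlgebra ℤ G) (q : ℕ) (h : ∀ g, (q : ℤ) ∣ x.coeff g) :
    (q : ℤ) * aug G x ≤ (x * sg ℤ G x).coeff 1 := by
  rw [aug_eq_sum, coeff_mul_sg_one, Finset.mul_sum]
  apply Finset.sum_le_sum
  intro g _
  obtain ⟨c, hc⟩ := h g
  rw [hc]
  have h1 : c ≤ c ^ 2 := Int.le_self_sq c
  nlinarith [sq_nonneg (q : ℤ)]

lemma coeff_ind_mul_sg (D : Finset G) (g : G) :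
    (ind D * sg ℤ G (ind D)).coeff g = ((D.filter (fun b => g * b ∈ D)).card : ℤ) := by
  rw [coeff_mul_apply_right, Finsupp.sum_fintype _ _ (by intro i; simp)]
  have h1 : ∀ b : G, (ind D).coeff (g * b⁻¹) * (sg ℤ G (ind D)).coeff b =
      if (b⁻¹ ∈ D ∧ g * b⁻¹ ∈ D) then 1 else 0 := by
    intro b
    rw [coeff_sg, coeff_ind, coeff_ind]
    by_cases h1 : b⁻¹ ∈ D <;> by_cases h2 : g * b⁻¹ ∈ D <;> simp [h1, h2]
  simp only [h1]
  have h2 : (∑ b : G, if (b⁻¹ ∈ D ∧ g * b⁻¹ ∈ D) then (1 : ℤ) else 0) =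
      ∑ b : G, if (b ∈ D ∧ g * b ∈ D) then (1 : ℤ) else 0 :=
    Fintype.sum_equiv (Equiv.inv G) _ _ (fun b => rfl)
  rw [h2, Finset.sum_boole]
  congr 1
  congr 1
  ext b
  simp

end Ind

end Run7.h680.TypeH
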