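import Mathlib

set_option autoImplicit false

/-!
Arithmetic input for the nonexistence of quasiregular collineation groups of type (h).
-/

namespace Run7.h680.TypeH

/-- If the product of the numbers in `Finset` sense of prime factors all have odd order exponent, then so does `k`. -/
lemma pow_eq_one_of_primes {s M : ℕ} (k : ℕ) (hk : k ≠ 0)
    (h : ∀ r : ℕ, r.Prime → r ∣ k → (r : ZMod s) ^ M = 1) : (k : ZMod s) ^ M = 1 := by
  induction k using Nat.recOnMul with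
  | zero => exact absurd rfl hk
  | one => simp
  | prime p hp => exact h p hp dvd_rfl
  | mul a b ha hb =>
    have ha0 : a ≠ 0 := by rintro rfl; simp at hk
    have hb0 : b ≠ 0 := by rintro rfl; simp at hk
    rw [Nat.cast_mul, mul_pow, ha ha0 (fun r hr hd => h r hr (hd.mul_right b)),
      hb hb0 (fun r hr hd => h r hr (hd.mul_left a)), one_mul]

lemma eq_one_or_neg_one_of_sq_eq_one {s : ℕ} [Fact s.Prime] (y : ZMod s) (h : y ^ 2 = 1) :
    y = 1 ∨ y = -1 := by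
  have h1 : (y - 1) * (y + 1) = 0 := by
    have h2 : (y - 1) * (y + 1) = y ^ 2 - 1 := by ring
    rw [h2, h, sub_self]
  rcases mul_eq_zero.mp h1 with h | h
  · exact Or.inl (sub_eq_zero.mp h)
  · exact Or.inr (eq_neg_of_add_eq_zero_left h)

/-- If `x ^ (M * 2 ^ i) = 1` but `x ^ M ≠ 1` in a field then some power of `x` is `-1`. -/
lemma exists_pow_eq_neg_one {s : ℕ} [Fact s.Prime] (x : ZMod s) (M : ℕ) (hM : 0 < M) :
    ∀ i : ℕ, x ^ (M * 2 ^ i) = 1 → x ^ M ≠ 1 → ∃ f, 0 < f ∧ x ^ f = -1 := by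
  intro i
  induction i with
  | zero => intro h1 h2; simp at h1; exact absurd h1 h2
  | succ i ih =>
    intro h1 h2
    by_cases h3 : x ^ (M * 2 ^ i) = 1
    · exact ih h3 h2
    · refine ⟨M * 2 ^ i, by positivity, ?_⟩
      have h4 : (x ^ (M * 2 ^ i)) ^ 2 = 1 := by
        rw [← pow_mul, mul_assoc, ← pow_succ]; exact h1
      rcases eq_one_or_neg_one_of_sq_eq_one _ h4 with h | h
      · exact absurd h h3
      · exact h

/-- A prime divisor of `k` which is self-conjugate modulo `s`, when `k ^ 3 = -1` modulo `s`. -/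
lemma exists_self_conjugate {s : ℕ} (hs : s.Prime) (hs2 : s ≠ 2) (k : ℕ) (hk : k ≠ 0)
    (h3 : (k : ZMod s) ^ 3 = -1) (hks : ¬ s ∣ k) :
    ∃ r : ℕ, r.Prime ∧ r ∣ k ∧ ∃ f, 0 < f ∧ (r : ZMod s) ^ f = -1 := by
  have : Fact s.Prime := ⟨hs⟩
  have : NeZero s := ⟨hs.ne_zero⟩
  have hs3 : 2 < s := lt_of_le_of_ne hs.two_le (Ne.symm hs2)
  have : Fact (2 < s) := ⟨hs3⟩
  obtain ⟨i, M, hMo, hM⟩ := Nat.exists_eq_two_pow_mul_odd (n := s - 1) (by omega)
  by_contra hcon
  push Not at hcon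
  have key : ∀ r : ℕ, r.Prime → r ∣ k → (r : ZMod s) ^ M = 1 := by
    intro r hr hd
    by_contra hne
    have hr0 : (r : ZMod s) ≠ 0 := by
      intro h0
      rw [ZMod.natCast_eq_zero_iff] at h0
      exact hks (h0.trans hd)
    have h1 : (r : ZMod s) ^ (M * 2 ^ i) = 1 := by
      rw [mul_comm, ← hM]; exact ZMod.pow_card_sub_one_eq_one hr0
    obtain ⟨f, hf, hf'⟩ := exists_pow_eq_neg_one (r : ZMod s) M hMo.pos i h1 hne
    exact hcon r hr hd f hf hf'
  have h1 := pow_eq_one_of_primes (s := s) (M := M) k hk key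
  have h2 : ((k : ZMod s) ^ 3) ^ M = 1 := by rw [← pow_mul, mul_comm, pow_mul, h1, one_pow]
  rw [h3, hMo.neg_one_pow] at h2
  exact ZMod.neg_one_ne_one h2

/-- Lifting: `r ^ f = -1` modulo `s` gives `r ^ F = -1` modulo any power of `s` (`s` odd). -/
lemma lift_neg_one {s : ℕ} (hs : s.Prime) (hs2 : s ≠ 2) (r f : ℕ) (hf : 0 < f)
    (h : (r : ZMod s) ^ f = -1) (n : ℕ) : ∃ F, 0 < F ∧ s ^ n ∣ r ^ F + 1 := by
  have h1 : (s : ℤ) ∣ (r : ℤ) ^ f - (-1) := by
    have := (ZMod.intCast_zmod_eq_zero_iff_dvd ((r : ℤ) ^ f + 1) s).mp (by push_cast; rw [h]; ring)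
    simpa using this
  have h2 := dvd_sub_pow_of_dvd_sub (p := s) h1 n
  have hodd : Odd (s ^ n) := (hs.odd_of_ne_two hs2).pow
  rw [hodd.neg_one_pow] at h2
  refine ⟨f * s ^ n, Nat.mul_pos hf (pow_pos hs.pos _), ?_⟩
  have h3 : ((s ^ n : ℕ) : ℤ) ∣ ((r ^ (f * s ^ n) + 1 : ℕ) : ℤ) := by
    push_cast
    rw [pow_mul]
    refine dvd_trans (pow_dvd_pow (s : ℤ) (Nat.le_succ n)) ?_
    simpa using h2
  exact_mod_cast h3

/-- The arithmetic input. -/
theorem num_main {k s a : ℕ} (hk : 3 ≤ k) (hs : s.Prime) (hP : k ^ 2 - k + 1 = s ^ a) :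
    ∃ r f : ℕ, r.Prime ∧ 0 < f ∧ (k ^ 2 - k + 1) ^ 2 ∣ r ^ f + 1 ∧
      ((3 ≤ r ∧ r ∣ k) ∨ (r = 2 ∧ 4 ∣ k) ∨ (r = 3 ∧ 3 ∣ k - 1)) := by
  have hkk : k ≤ k ^ 2 := by nlinarith
  have hP7 : 7 ≤ k ^ 2 - k + 1 := by
    obtain ⟨c, rfl⟩ := Nat.exists_eq_add_of_le hk
    have : (3 + c) ^ 2 = (3 + c) + (6 + 5 * c + c ^ 2) := by ring
    rw [this]
    omega
  have ha : a ≠ 0 := by
    rintro rfl
    rw [pow_zero] at hP
    omega
  have hsP : s ∣ k ^ 2 - k + 1 := by rw [hP]; exact dvd_pow_self s ha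
  have hZ : (k : ZMod s) ^ 2 - k + 1 = 0 := by
    have := (ZMod.natCast_eq_zero_iff (k ^ 2 - k + 1) s).mpr hsP
    rw [Nat.cast_add, Nat.cast_sub hkk] at this
    push_cast at this
    exact this
  have hfac : Fact s.Prime := ⟨hs⟩
  have hodd : Odd (k ^ 2 - k + 1) := by
    have h1 : k ^ 2 - k = k * (k - 1) := by
      rw [pow_two, Nat.mul_sub, mul_one]
    rw [h1]
    exact (Nat.even_mul_pred_self k).add_one
  have hs2 : s ≠ 2 := by
    rintro rfl
    rw [hP] at hodd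
    have : Odd 2 := (Nat.odd_pow_iff ha).mp hodd
    exact absurd this (by decide)
  have hks : ¬ s ∣ k := by
    intro h
    have h0 : (k : ZMod s) = 0 := (ZMod.natCast_eq_zero_iff k s).mpr h
    rw [h0] at hZ
    simp at hZ
  have h3 : (k : ZMod s) ^ 3 = -1 := by
    linear_combination ((k : ZMod s) + 1) * hZ
  obtain ⟨r, hr, hrk, f, hf, hrf⟩ := exists_self_conjugate hs hs2 k (by omega) h3 hks
  have hPow : (k ^ 2 - k + 1) ^ 2 = s ^ (a * 2) := by rw [hP, ← pow_mul]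
  by_cases hr3 : 3 ≤ r
  · obtain ⟨F, hF, hF'⟩ := lift_neg_one hs hs2 r f hf hrf (a * 2)
    exact ⟨r, F, hr, hF, by rw [hPow]; exact hF', Or.inl ⟨hr3, hrk⟩⟩
  have hr2 : r = 2 := by have := hr.two_le; omega
  subst hr2
  by_cases h4 : 4 ∣ k
  · obtain ⟨F, hF, hF'⟩ := lift_neg_one hs hs2 2 f hf hrf (a * 2)
    exact ⟨2, F, hr, hF, by rw [hPow]; exact hF', Or.inr (Or.inl ⟨rfl, h4⟩)⟩
  -- `k = 2 mod 4`
  have hk4 : k % 4 = 2 := by omega
  have hP4 : (k ^ 2 - k + 1) % 4 = 3 := by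
    obtain ⟨c, hc⟩ : ∃ c, k = 4 * c + 2 := ⟨k / 4, by omega⟩
    subst hc
    have : (4 * c + 2) ^ 2 = (4 * c + 2) + (4 * (4 * c ^ 2 + 3 * c) + 2) := by ring
    rw [this]
    omega
  have hs4 : s % 4 = 3 := by
    have h1 : s % 4 = 1 ∨ s % 4 = 3 := by
      have := hs.odd_of_ne_two hs2
      rw [Nat.odd_iff] at this
      omega
    rcases h1 with h1 | h1
    · exfalso
      rw [hP, Nat.pow_mod, h1, one_pow] at hP4
      norm_num at hP4
    · exact h1
  have hs3 : s ≠ 3 := by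
    rintro rfl
    have ha2 : 2 ≤ a := by
      rcases Nat.lt_or_ge a 2 with h | h
      · have : a = 1 := by omega
        subst this
        omega
      · exact h
    have h9 : 9 ∣ k ^ 2 - k + 1 := by
      rw [hP]
      exact dvd_trans (by norm_num) (pow_dvd_pow 3 ha2)
    have hZ9 : (k : ZMod 9) ^ 2 - k + 1 = 0 := by
      have := (ZMod.natCast_eq_zero_iff (k ^ 2 - k + 1) 9).mpr h9
      rw [Nat.cast_add, Nat.cast_sub hkk] at this
      push_cast at this
      exact this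
    revert hZ9
    generalize (k : ZMod 9) = x
    revert x
    decide
  have h3ne : (3 : ZMod s) ≠ 0 := by
    intro h
    have h' : ((3 : ℕ) : ZMod s) = 0 := by exact_mod_cast h
    rw [ZMod.natCast_eq_zero_iff] at h'
    exact hs3 ((Nat.prime_dvd_prime_iff_eq hs Nat.prime_three).mp h')
  have hord : orderOf (-(k : ZMod s)) = 3 := by
    refine orderOf_eq_prime ?_ ?_
    · linear_combination (-1 : ZMod s) * h3
    · intro h
      apply h3ne
      have hk1 : (k : ZMod s) = -1 := by rw [← h]; ring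
      rw [hk1] at hZ
      linear_combination hZ
  have hdiv : 3 ∣ s - 1 := by
    rw [← hord]
    apply orderOf_dvd_of_pow_eq_one
    apply ZMod.pow_card_sub_one_eq_one
    intro h
    rw [neg_eq_zero, ZMod.natCast_eq_zero_iff] at h
    exact hks h
  have hsq : ¬ IsSquare (3 : ZMod s) := by
    have hfac3 : Fact (Nat.Prime 3) := ⟨Nat.prime_three⟩
    have h1 := ZMod.exists_sq_eq_prime_iff_of_mod_four_eq_three (p := s) (q := 3) hs4 (by norm_num) hs3
    have h2 : IsSquare (s : ZMod 3) := by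
      have h5 : (s : ZMod 3) = 1 := by
        have h6 : s = (s - 1) + 1 := by have := hs.pos; omega
        rw [h6, Nat.cast_add, (ZMod.natCast_eq_zero_iff (s - 1) 3).mpr hdiv]
        simp
      rw [h5]
      exact ⟨1, by ring⟩
    intro h
    have h' : IsSquare ((3 : ℕ) : ZMod s) := by exact_mod_cast h
    exact (h1.mp h') h2
  have h3f : ((3 : ℕ) : ZMod s) ^ (s / 2) = -1 := by
    have h1 := ZMod.pow_div_two_eq_neg_one_or_one s h3ne
    have h2 := ZMod.euler_criterion s h3ne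
    rcases h1 with h1 | h1
    · exact absurd (h2.mpr h1) hsq
    · exact_mod_cast h1
  have hf3 : 0 < s / 2 := by have := hs.two_le; omega
  obtain ⟨F, hF, hF'⟩ := lift_neg_one hs hs2 3 (s / 2) hf3 h3f (a * 2)
  have hdvd : 3 ∣ k * (k - 1) := by
    have h1 : s - 1 ∣ s ^ a - 1 := by
      simpa using Nat.sub_dvd_pow_sub_pow s 1 a
    have h2 : s ^ a - 1 = k * (k - 1) := by
      rw [← hP, Nat.add_sub_cancel, pow_two, Nat.mul_sub, mul_one]
    rw [← h2]
    exact hdiv.trans h1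
  rcases (Nat.Prime.dvd_mul Nat.prime_three).mp hdvd with h | h
  · exact ⟨3, F, Nat.prime_three, hF, by rw [hPow]; exact hF', Or.inl ⟨le_rfl, h⟩⟩
  · exact ⟨3, F, Nat.prime_three, hF, by rw [hPow]; exact hF', Or.inr (Or.inr ⟨rfl, h⟩)⟩

end Run7.h680.TypeH
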