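import Mathlib

set_option autoImplicit false

/-!
Partial spreads: a group of order `m ^ 2` with many pairwise disjoint subgroups of order `m`.
-/

namespace Run7.h680.TypeH

open Finset

/-- Counting in a partial spread. -/
lemma card_count {G : Type*} [Group G] [Finite G] {ι : Type*} [Fintype ι]
    (R : ι → Subgroup G) (Q : Subgroup G) (q : ℕ) (hR : ∀ j, Nat.card (R j) = q)
    (hle : ∀ j, R j ≤ Q) (hdisj : ∀ i j, i ≠ j → R i ⊓ R j = ⊥) :
    Fintype.card ι * (q - 1) ≤ Nat.card Q - 1 := by
  classical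
  have := Fintype.ofFinite G
  have hA : ∀ H : Subgroup G, (univ.filter (fun g : G => g ∈ H ∧ g ≠ 1)).card = Nat.card H - 1 := by
    intro H
    have h1 : (univ.filter (fun g : G => g ∈ H ∧ g ≠ 1)) = (univ.filter (fun g : G => g ∈ H)).erase 1 := by
      ext g
      simp only [mem_filter, mem_univ, true_and, mem_erase]
      exact and_comm
    rw [h1, card_erase_of_mem (by simp [H.one_mem]), Nat.card_eq_fintype_card,
      Fintype.card_subtype]
  have h2 : (univ.biUnion (fun j : ι => univ.filter (fun g : G => g ∈ R j ∧ g ≠ 1))).card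
      = ∑ j : ι, (univ.filter (fun g : G => g ∈ R j ∧ g ≠ 1)).card := by
    apply card_biUnion
    intro i _ j _ hij
    refine Finset.disjoint_left.mpr ?_
    intro g hg hg'
    simp only [mem_filter, mem_univ, true_and] at hg hg'
    have : g ∈ R i ⊓ R j := ⟨hg.1, hg'.1⟩
    rw [hdisj i j hij, Subgroup.mem_bot] at this
    exact hg.2 this
  have h3 : (univ.biUnion (fun j : ι => univ.filter (fun g : G => g ∈ R j ∧ g ≠ 1))) ⊆
      univ.filter (fun g : G => g ∈ Q ∧ g ≠ 1) := by
    intro g hg
    simp only [mem_biUnion, mem_filter, mem_univ, true_and] at hg ⊢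
    obtain ⟨j, hj, h⟩ := hg
    exact ⟨hle j hj, h⟩
  have h4 := card_le_card h3
  rw [h2, hA Q] at h4
  simp only [hA, hR, sum_const, card_univ, smul_eq_mul] at h4
  exact h4

/-- The order of the components of a large partial spread in an abelian group is a prime power. -/
theorem prime_power_of_spread {G : Type*} [CommGroup G] [Finite G] {ι : Type*} [Fintype ι]
    (k : ℕ) (hk : 3 ≤ k) (hι : Fintype.card ι = 2 * k) (N : ι → Subgroup G)
    (hcard : ∀ j, Nat.card (N j) = k ^ 2 - k + 1) (hG : Nat.card G = (k ^ 2 - k + 1) ^ 2)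
    (hdisj : ∀ i j, i ≠ j → N i ⊓ N j = ⊥) : ∃ s a : ℕ, s.Prime ∧ k ^ 2 - k + 1 = s ^ a := by
  classical
  set m := k ^ 2 - k + 1 with hm
  have hm0 : m ≠ 0 := by omega
  have hkk : k ≤ k ^ 2 := by nlinarith
  have hm1 : m ≠ 1 := by
    have : 3 * k ≤ k ^ 2 := by nlinarith
    omega
  have key : ∀ s : ℕ, s.Prime → s ∣ m → 2 * k ≤ s ^ (m.factorization s) + 1 := by
    intro s hs hsm
    have : Fact s.Prime := ⟨hs⟩
    let Q : Sylow s G := default
    have huniq : ∀ Q' : Sylow s G, Q' = Q := by
      intro Q'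
      have : Unique (Sylow s G) := Sylow.unique_of_normal Q inferInstance
      exact Subsingleton.elim _ _
    let R : ι → Subgroup G := fun j => ((default : Sylow s (N j)) : Subgroup (N j)).map (N j).subtype
    have hR : ∀ j, Nat.card (R j) = s ^ (m.factorization s) := by
      intro j
      have h1 : Nat.card (R j) = Nat.card ((default : Sylow s (N j)) : Subgroup (N j)) :=
        Subgroup.card_map_of_injective (N j).subtype_injective
      rw [h1]
      have h2 := Sylow.card_eq_multiplicity (default : Sylow s (N j))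
      rw [hcard j] at h2
      exact h2
    have hle : ∀ j, R j ≤ (Q : Subgroup G) := by
      intro j
      have h1 : IsPGroup s (R j) := (default : Sylow s (N j)).isPGroup'.map _
      obtain ⟨Q', hQ'⟩ := h1.exists_le_sylow
      rw [huniq Q'] at hQ'
      exact hQ'
    have hRd : ∀ i j, i ≠ j → R i ⊓ R j = ⊥ := by
      intro i j hij
      rw [eq_bot_iff, ← hdisj i j hij]
      apply inf_le_inf
      · exact Subgroup.map_subtype_le _
      · exact Subgroup.map_subtype_le _
    have h := card_count R (Q : Subgroup G) _ hR hle hRd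
    have hQ : Nat.card (Q : Subgroup G) = (s ^ (m.factorization s)) ^ 2 := by
      have h2 := Sylow.card_eq_multiplicity Q
      rw [hG, Nat.factorization_pow] at h2
      rw [h2, ← pow_mul]
      congr 1
      simp [mul_comm]
    rw [hι] at h
    rw [hQ] at h
    have hq : 1 < s ^ (m.factorization s) := by
      apply Nat.one_lt_pow
      · exact (hs.factorization_pos_of_dvd hm0 hsm).ne'
      · exact hs.one_lt
    generalize s ^ (m.factorization s) = q at h hq
    obtain ⟨c, rfl⟩ : ∃ c, q = c + 1 := ⟨q - 1, by omega⟩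
    have h5 : (c + 1) ^ 2 - 1 = c * (c + 2) := by
      have : (c + 1) ^ 2 = c * (c + 2) + 1 := by ring
      rw [this]; rfl
    rw [h5, Nat.add_sub_cancel] at h
    have hc : 0 < c := by omega
    have h6 : 2 * k ≤ c + 2 := by
      have : c * (2 * k) ≤ c * (c + 2) := by rw [mul_comm]; exact h
      exact Nat.le_of_mul_le_mul_left this hc
    omega
  obtain ⟨s, hs, hsm⟩ := Nat.exists_prime_and_dvd hm1
  refine ⟨s, m.primeFactorsList.length, hs, ?_⟩
  apply Nat.eq_prime_pow_of_unique_prime_dvd hm0
  intro t ht htm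
  by_contra hne
  have h1 := key s hs hsm
  have h2 := key t ht htm
  have hcop : Nat.Coprime (s ^ (m.factorization s)) (t ^ (m.factorization t)) :=
    Nat.Coprime.pow _ _ ((Nat.coprime_primes hs ht).mpr (fun h => hne h.symm))
  have h3 : s ^ (m.factorization s) * t ^ (m.factorization t) ∣ m :=
    hcop.mul_dvd_of_dvd_of_dvd (Nat.ordProj_dvd m s) (Nat.ordProj_dvd m t)
  have h4 := Nat.le_of_dvd (Nat.pos_of_ne_zero hm0) h3
  have h5 : (2 * k - 1) * (2 * k - 1) ≤ m :=
    le_trans (Nat.mul_le_mul (by omega) (by omega)) h4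
  obtain ⟨c, rfl⟩ := Nat.exists_eq_add_of_le hk
  have h6 : 2 * (3 + c) - 1 = 5 + 2 * c := by omega
  rw [h6] at h5
  have h7 : (3 + c) ^ 2 = (3 + c) + (6 + 5 * c + c ^ 2) := by ring
  have h8 : m = 7 + 5 * c + c ^ 2 := by rw [hm, h7]; omega
  rw [h8] at h5
  nlinarith

end Run7.h680.TypeH
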