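import Mathlib
import Pool.Agent.Run7.h680.Alg2
import Pool.Agent.Run7.h680.Num
import Pool.Agent.Run7.h680.Spread

set_option autoImplicit false
set_option linter.unusedSectionVars false

/-!
Group ring computations for quasiregular collineation groups of type (h), final part.
-/

namespace Run7.h680.TypeH

open Finset MonoidAlgebra

/-- The difference set equation of a plane of type (h) has no solution. -/
theorem alg_false {G : Type*} [CommGroup G] [Fintype G] [DecidableEq G] {ι : Type*} [Fintype ι]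
    [DecidableEq ι]
    (k : ℕ) (hk : 3 ≤ k) (hι : Fintype.card ι = 2 * k) (N : ι → Subgroup G)
    (hN : ∀ j, Nat.card (N j) = k ^ 2 - k + 1) (hG : Nat.card G = (k ^ 2 - k + 1) ^ 2)
    (hdisj : ∀ i j, i ≠ j → N i ⊓ N j = ⊥) (D : Finset G) (hD : D.card = (k - 1) ^ 2)
    (hD0 : ∀ g : G, g ≠ 1 → (∃ j, g ∈ N j) → (D.filter (fun b => g * b ∈ D)).card = 0)
    (hD1 : ∀ g : G, g ≠ 1 → (¬ ∃ j, g ∈ N j) → (D.filter (fun b => g * b ∈ D)).card = 1) :
    False := by
  classical
  obtain ⟨s, a, hs, hsa⟩ := prime_power_of_spread k hk hι N hN hG hdisj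
  obtain ⟨r, f, hr, hf, hrf, hcases⟩ := num_main hk hs hsa
  have hkk : k ≤ k ^ 2 := by nlinarith
  -- the inversion property
  have hinv : ∀ g : G, g ^ (r ^ f) = g⁻¹ := by
    intro g
    rw [eq_inv_iff_mul_eq_one, ← pow_succ]
    rw [← hG] at hrf
    obtain ⟨c, hc⟩ := hrf
    rw [hc, pow_mul, pow_card_eq_one', one_pow]
  -- notation
  set A := MonoidAlgebra ℤ G with hA
  set K : A := ((k : ℕ) : A) with hK
  set d : A := ind D with hd
  set d' : A := sg ℤ G d with hd'
  set Γ : A := ind (univ : Finset G) with hΓ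
  set T : A := ∑ j, ind (fs (N j)) with hT
  have hcardG : Fintype.card G = (k ^ 2 - k + 1) ^ 2 := by rw [← Nat.card_eq_fintype_card, hG]
  have hm : (((k ^ 2 - k + 1 : ℕ) : ℕ) : A) = K ^ 2 - K + 1 := by
    rw [Nat.cast_add, Nat.cast_sub hkk]
    push_cast
    rfl
  have hkm1 : (((k - 1 : ℕ) : ℕ) : A) = K - 1 := by
    rw [Nat.cast_sub (by omega)]
    push_cast
    rfl
  have hTc : ∀ g : G, T.coeff g = ∑ j, (if g ∈ N j then (1 : ℤ) else 0) := by
    intro g
    rw [hT, coeff_sum, Finsupp.finsetSum_apply]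
    apply Finset.sum_congr rfl
    intro j _
    rw [coeff_ind]
    by_cases h : g ∈ N j
    · rw [if_pos h, if_pos ((mem_fs _ _).mpr h)]
    · rw [if_neg h, if_neg (fun h' => h ((mem_fs _ _).mp h'))]
  have h1 : d * d' = K ^ 2 + Γ - T := by
    ext g
    have e1 : (K ^ 2 + Γ - T).coeff g = (K ^ 2).coeff g + Γ.coeff g - T.coeff g := rfl
    rw [e1, hd', hd, coeff_ind_mul_sg, hTc, hΓ, coeff_ind, if_pos (mem_univ g)]
    have e2 : K ^ 2 = ((k ^ 2 : ℕ) : A) := by push_cast; rfl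
    by_cases hg : g = 1
    · subst hg
      have e3 : (K ^ 2).coeff (1 : G) = (k : ℤ) ^ 2 := by
        rw [e2, MonoidAlgebra.natCast_def, coeff_single, Finsupp.single_eq_same]
        push_cast; rfl
      have e4 : D.filter (fun b => 1 * b ∈ D) = D := by
        apply Finset.filter_true_of_mem
        intro b hb
        rwa [one_mul]
      rw [e3, e4, hD]
      simp only [Subgroup.one_mem, if_true, Finset.sum_const, card_univ, hι]
      have : ((k - 1 : ℕ) : ℤ) = (k : ℤ) - 1 := by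
        rw [Nat.cast_sub (by omega)]; rfl
      push_cast
      rw [this]
      simp
      ring
    · have e3 : (K ^ 2).coeff g = 0 := by
        rw [e2, MonoidAlgebra.natCast_def, coeff_single, Finsupp.single_eq_of_ne hg]
      rw [e3]
      by_cases hj : ∃ j, g ∈ N j
      · rw [hD0 g hg hj]
        obtain ⟨j, hj⟩ := hj
        have e4 : ∑ i, (if g ∈ N i then (1 : ℤ) else 0) = 1 := by
          rw [Finset.sum_eq_single j]
          · rw [if_pos hj]
          · intro i _ hij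
            rw [if_neg]
            intro hi
            have : g ∈ N i ⊓ N j := ⟨hi, hj⟩
            rw [hdisj i j hij, Subgroup.mem_bot] at this
            exact hg this
          · intro h; exact absurd (mem_univ j) h
        rw [e4]
        simp
      · rw [hD1 g hg hj]
        have e4 : ∑ i, (if g ∈ N i then (1 : ℤ) else 0) = 0 := by
          apply Finset.sum_eq_zero
          intro i _
          rw [if_neg]
          intro hi
          exact hj ⟨i, hi⟩
        rw [e4]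
        simp
  have hprod : ∀ i j, i ≠ j → ind (fs (N i)) * ind (fs (N j)) = Γ := by
    intro i j hij
    apply fs_mul_fs_of_disjoint _ _ (hdisj i j hij)
    rw [hN, hN, hcardG]
    exact (pow_two _).symm
  have hself : ∀ i, ind (fs (N i)) * ind (fs (N i)) = (K ^ 2 - K + 1) * ind (fs (N i)) := by
    intro i
    rw [fs_mul_fs, hN, hm]
  have hiT : ∀ i, ind (fs (N i)) * T = (K ^ 2 - K + 1) * ind (fs (N i)) + (2 * K - 1) * Γ := by
    intro i
    rw [hT, Finset.mul_sum, ← Finset.add_sum_erase univ _ (mem_univ i), hself]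
    rw [Finset.sum_congr rfl (fun j hj => hprod i j (Finset.ne_of_mem_erase hj).symm)]
    rw [Finset.sum_const, card_erase_of_mem (mem_univ i), card_univ, hι, nsmul_eq_mul,
      Nat.cast_sub (by omega)]
    push_cast
    rfl
  have hTT : T * T = (K ^ 2 - K + 1) * T + 2 * K * (2 * K - 1) * Γ := by
    conv_lhs => rw [hT, Finset.sum_mul]
    rw [← hT, Finset.sum_congr rfl (fun i _ => hiT i), Finset.sum_add_distrib, ← Finset.mul_sum,
      Finset.sum_const, card_univ, hι, nsmul_eq_mul, ← hT]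
    push_cast
    ring
  have hiΓ : ∀ i, ind (fs (N i)) * Γ = (K ^ 2 - K + 1) * Γ := by
    intro i
    rw [hΓ, ind_mul_univ, card_fs, hN, hm]
  have hTΓ : T * Γ = 2 * K * (K ^ 2 - K + 1) * Γ := by
    rw [hT, Finset.sum_mul, Finset.sum_congr rfl (fun i _ => hiΓ i), Finset.sum_const, card_univ,
      hι, nsmul_eq_mul]
    push_cast
    ring
  have hΓΓ : Γ * Γ = (K ^ 2 - K + 1) ^ 2 * Γ := by
    rw [hΓ, ind_mul_univ, card_univ, hcardG]
    push_cast
    rw [← hm]
    push_cast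
    rfl
  have hdΓ : d * Γ = (K - 1) ^ 2 * Γ := by
    rw [hd, hΓ, ind_mul_univ, hD, Nat.cast_pow, hkm1]
  have hd'Γ : d' * Γ = (K - 1) ^ 2 * Γ := by
    have := congrArg (sg ℤ G) hdΓ
    rw [map_mul, map_mul, map_pow, map_sub, map_one, hK, map_natCast, hΓ, sg_univ] at this
    exact this
  have hTs : sg ℤ G T = T := by
    rw [hT, map_sum]
    exact Finset.sum_congr rfl (fun i _ => sg_fs _)
  have hΓs : sg ℤ G Γ = Γ := sg_univ
  -- the element `F`
  set F : A := d * (1 - T) + (2 * K - 1) * Γ with hF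
  have hFs : sg ℤ G F = d' * (1 - T) + (2 * K - 1) * Γ := by
    rw [hF, map_add, map_mul, map_mul, map_sub, map_sub, map_mul, map_one, hTs, hΓs, hK, map_natCast]
    congr 3
    rw [map_ofNat]
  have hFF : F * sg ℤ G F = K ^ 2 * (1 + (K - 2) * T + (K ^ 2 + 2 * K - 1) * Γ) := by
    rw [hFs, hF]
    linear_combination (1 - T) ^ 2 * h1 + (2 * K - 1) * (1 - T) * (hdΓ + hd'Γ)
      + (K ^ 2 + Γ + 2 - T - (K ^ 2 - K + 1)) * hTT
      + (-2 + (K ^ 2 - K + 1) - 2 * K * (2 * K - 1) - 2 * (2 * K - 1) * (K - 1) ^ 2) * hTΓ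
      + (2 * K * (2 * K - 1) + (2 * K - 1) ^ 2) * hΓΓ
  -- augmentations
  have haugK : aug G K = k := by rw [hK, map_natCast]
  have haugd : aug G d = ((k : ℤ) - 1) ^ 2 := by
    rw [hd, aug_ind, hD]
    push_cast
    rw [Nat.cast_sub (by omega)]
    push_cast; rfl
  have haugΓ : aug G Γ = ((k : ℤ) ^ 2 - k + 1) ^ 2 := by
    rw [hΓ, aug_ind, card_univ, hcardG]
    push_cast
    rw [Nat.cast_sub hkk]
    push_cast; rfl
  have haugN : ∀ i, aug G (ind (fs (N i))) = (k : ℤ) ^ 2 - k + 1 := by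
    intro i
    rw [aug_ind, card_fs, hN]
    push_cast
    rw [Nat.cast_sub hkk]
    push_cast; rfl
  have haugT : aug G T = 2 * k * ((k : ℤ) ^ 2 - k + 1) := by
    rw [hT, map_sum, Finset.sum_congr rfl (fun i _ => haugN i), Finset.sum_const, card_univ, hι,
      nsmul_eq_mul]
    push_cast; ring
  have haugF : aug G F = (k : ℤ) ^ 4 := by
    rw [hF, map_add, map_mul, map_mul, map_sub, map_sub, map_mul, map_one, haugd, haugT, haugΓ,
      haugK, map_ofNat]
    ring
  have hone : ((1 : A)).coeff (1 : G) = 1 := coeff_one_one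
  have hT1 : T.coeff (1 : G) = 2 * k := by
    rw [hTc]
    simp only [Subgroup.one_mem, if_true, Finset.sum_const, card_univ, hι]
    simp
  have hΓ1 : Γ.coeff (1 : G) = 1 := by rw [hΓ, coeff_ind, if_pos (mem_univ _)]
  have hFF1 : (F * sg ℤ G F).coeff 1 = (k : ℤ) ^ 3 * (3 * k - 2) := by
    have e1 : K ^ 2 * (1 + (K - 2) * T + (K ^ 2 + 2 * K - 1) * Γ) =
        (((k : ℤ) ^ 2 : ℤ) : A) * (1 + (((k : ℤ) - 2 : ℤ) : A) * T
          + ((((k : ℤ) ^ 2 + 2 * k - 1 : ℤ)) : A) * Γ) := by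
      push_cast
      rfl
    rw [hFF, e1, coeff_intCast_mul]
    have e2 : (1 + (((k : ℤ) - 2 : ℤ) : A) * T + ((((k : ℤ) ^ 2 + 2 * k - 1 : ℤ)) : A) * Γ).coeff 1
        = (1 : A).coeff (1 : G) + ((((k : ℤ) - 2 : ℤ) : A) * T).coeff 1
          + (((((k : ℤ) ^ 2 + 2 * k - 1 : ℤ)) : A) * Γ).coeff 1 := rfl
    rw [e2, coeff_intCast_mul, coeff_intCast_mul, hone, hT1, hΓ1]
    ring
  -- the conclusion in the main case
  have hmain : ∀ e : ℕ, r ^ e ∣ k → 3 ≤ r ^ e → False := by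
    intro e he he3
    obtain ⟨c, hc⟩ := he
    have h5 : F * sg ℤ G F = ((r ^ e : ℕ) : A) ^ 2 *
        ((c : A) ^ 2 * (1 + (K - 2) * T + (K ^ 2 + 2 * K - 1) * Γ)) := by
      rw [hFF]
      have : K = ((r ^ e : ℕ) : A) * (c : A) := by rw [hK, hc]; push_cast; rfl
      nth_rewrite 1 [this]
      ring
    have h6 := pow_dvd_of_mul_sg r f hr hf hinv e F _ h5
    have h7 := main_ineq F (r ^ e) h6
    rw [haugF, hFF1] at h7
    have hk0 : (0 : ℤ) < (k : ℤ) ^ 3 := by positivity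
    have h8 : (k : ℤ) ^ 3 * (((r ^ e : ℕ) : ℤ) * k) ≤ (k : ℤ) ^ 3 * (3 * k - 2) := by
      calc (k : ℤ) ^ 3 * (((r ^ e : ℕ) : ℤ) * k) = ((r ^ e : ℕ) : ℤ) * (k : ℤ) ^ 4 := by ring
        _ ≤ _ := h7
    have h9 := le_of_mul_le_mul_left h8 hk0
    have h10 : (3 : ℤ) ≤ ((r ^ e : ℕ) : ℤ) := by exact_mod_cast he3
    have h11 : (0 : ℤ) < k := by positivity
    nlinarith
  rcases hcases with ⟨h3, hdv⟩ | ⟨h2, h4⟩ | ⟨h3, hdv⟩
  · exact hmain 1 (by rwa [pow_one]) (by rwa [pow_one])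
  · subst h2
    exact hmain 2 (by norm_num; exact h4) (by norm_num)
  · -- the last case: `3 ∣ k - 1`
    subst h3
    have hne : Nonempty ι := by
      rw [← Fintype.card_pos_iff, hι]; omega
    obtain ⟨j⟩ := hne
    set E : A := d * ind (fs (N j)) with hE
    have hEs : sg ℤ G E = d' * ind (fs (N j)) := by
      rw [hE, map_mul, sg_fs]
    have hEE : E * sg ℤ G E = (K ^ 2 - K + 1) * ((K - 1) * ind (fs (N j)) + (K - 1) * (K - 2) * Γ) := by
      rw [hEs, hE]
      linear_combination (ind (fs (N j))) ^ 2 * h1 + (K ^ 2 + Γ - T) * hself j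
        + (K ^ 2 - K + 1) * (hiΓ j) - (K ^ 2 - K + 1) * (hiT j)
    obtain ⟨c, hc⟩ := hdv
    have hKc : K - 1 = ((3 : ℕ) : A) * (c : A) := by rw [← hkm1, hc]; push_cast; rfl
    have h5 : E * sg ℤ G E = ((3 : ℕ) : A) * ((K ^ 2 - K + 1) * ((c : A) * ind (fs (N j)) + (c : A) * (K - 2) * Γ)) := by
      rw [hEE, hKc]
      ring
    have h6 := dvd_of_mul_sg 3 f Nat.prime_three hf hinv E _ h5
    have h7 := main_ineq E 3 h6
    have hNj1 : (ind (fs (N j))).coeff (1 : G) = 1 := by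
      rw [coeff_ind, if_pos ((mem_fs _ _).mpr (Subgroup.one_mem _))]
    have hEE1 : (E * sg ℤ G E).coeff 1 = ((k : ℤ) ^ 2 - k + 1) * (((k : ℤ) - 1) ^ 2) := by
      have e1 : (K ^ 2 - K + 1) * ((K - 1) * ind (fs (N j)) + (K - 1) * (K - 2) * Γ) =
          (((k : ℤ) ^ 2 - k + 1 : ℤ) : A) * ((((k : ℤ) - 1 : ℤ) : A) * ind (fs (N j))
            + (((((k : ℤ) - 1) * ((k : ℤ) - 2) : ℤ)) : A) * Γ) := by
        push_cast
        rfl
      rw [hEE, e1, coeff_intCast_mul]
      have e2 : ((((k : ℤ) - 1 : ℤ) : A) * ind (fs (N j))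
            + (((((k : ℤ) - 1) * ((k : ℤ) - 2) : ℤ)) : A) * Γ).coeff 1
          = ((((k : ℤ) - 1 : ℤ) : A) * ind (fs (N j))).coeff 1
            + ((((((k : ℤ) - 1) * ((k : ℤ) - 2) : ℤ)) : A) * Γ).coeff 1 := rfl
      rw [e2, coeff_intCast_mul, coeff_intCast_mul, hNj1, hΓ1]
      ring
    have haugE : aug G E = ((k : ℤ) - 1) ^ 2 * ((k : ℤ) ^ 2 - k + 1) := by
      rw [hE, map_mul, haugd, haugN]
    rw [haugE, hEE1] at h7
    have hk3 : (3 : ℤ) ≤ k := by exact_mod_cast hk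
    have h8 : (0 : ℤ) < ((k : ℤ) - 1) ^ 2 * ((k : ℤ) ^ 2 - k + 1) := by
      apply mul_pos
      · have : (0 : ℤ) < (k : ℤ) - 1 := by linarith
        positivity
      · nlinarith
    push_cast at h7
    nlinarith

end Run7.h680.TypeH
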