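import Mathlib

set_option autoImplicit false
set_option linter.unusedSectionVars false

/-!
Fixed structures of quasiregular collineation groups.
-/

namespace Run7.h680.TypeH

open Configuration Configuration.Nondegenerate
open Configuration.HasPoints (mkPoint mkPoint_ax)
open Configuration.HasLines (mkLine mkLine_ax)

/-- The lines of a projective plane with finitely many points form a finite set. -/
lemma finite_lines (P L : Type*) [Membership P L] [ProjectivePlane P L] [Finite P] : Finite L := by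
  classical
  have two : ∀ l : L, ∃ p q : P, p ≠ q ∧ p ∈ l ∧ q ∈ l := by
    intro l
    obtain ⟨p₁, p₂, p₃, l₁, l₂, l₃, h₁₂, h₁₃, h₂₁, h₂₂, h₂₃, h₃₁, h₃₂, h₃₃⟩ :=
      @ProjectivePlane.exists_config P L _ _
    have h23 : l₂ ≠ l₃ := by rintro rfl; exact h₃₃ h₃₂
    have h12 : l₁ ≠ l₂ := by rintro rfl; exact h₂₁ h₂₂
    have h13 : l₁ ≠ l₃ := by rintro rfl; exact h₂₁ h₂₃
    by_cases e2 : l = l₂
    · subst e2
      exact ⟨p₂, p₃, by rintro rfl; exact h₃₃ h₂₃, h₂₂, h₃₂⟩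
    by_cases e3 : l = l₃
    · subst e3
      have hx := mkPoint_ax (P := P) h13
      exact ⟨p₂, mkPoint h13, by intro h; rw [← h] at hx; exact h₂₁ hx.1, h₂₃, hx.2⟩
    have hx2 := mkPoint_ax (P := P) e2
    have hx3 := mkPoint_ax (P := P) e3
    by_cases heq : (mkPoint e2 : P) = mkPoint e3
    · -- the common point is `p₂`
      rw [← heq] at hx3
      have h2 : (mkPoint e2 : P) = p₂ := (eq_or_eq hx2.2 h₂₂ hx3.2 h₂₃).resolve_right h23
      have e1 : l ≠ l₁ := by
        rintro rfl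
        rw [h2] at hx2
        exact h₂₁ hx2.1
      have hx1 := mkPoint_ax (P := P) e1
      refine ⟨p₂, mkPoint e1, ?_, by rw [← h2]; exact hx2.1, hx1.1⟩
      intro h
      rw [← h] at hx1
      exact h₂₁ hx1.2
    · exact ⟨mkPoint e2, mkPoint e3, heq, hx2.1, hx3.1⟩
  have hinj : Function.Injective (fun l : L => {p : P | p ∈ l}) := by
    intro l m hlm
    obtain ⟨p, q, hpq, hp, hq⟩ := two l
    have hp' : p ∈ {p : P | p ∈ m} := by
      have : {p : P | p ∈ l} = {p : P | p ∈ m} := hlm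
      rw [← this]; exact hp
    have hq' : q ∈ {p : P | p ∈ m} := by
      have : {p : P | p ∈ l} = {p : P | p ∈ m} := hlm
      rw [← this]; exact hq
    exact (eq_or_eq hp hq hp' hq').resolve_left hpq
  exact Finite.of_injective _ hinj

/-- The standing hypotheses. -/
structure Hyp (P L G : Type*) [Membership P L] [Group G] [MulAction G P] [MulAction G L] : Prop where
  inc : ∀ (g : G) (p : P) (l : L), p ∈ l ↔ g • p ∈ g • l
  faith : ∀ g : G, (∀ p : P, g • p = p) → g = 1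
  qp : ∀ (g : G) (p q : P), q ∈ MulAction.orbit G p → g • p = p → g • q = q
  ql : ∀ (g : G) (l m : L), m ∈ MulAction.orbit G l → g • l = l → g • m = m
  nfp : ¬ ∃ p : P, ∀ g : G, g • p = p
  nfl : ¬ ∃ l : L, ∀ g : G, g • l = l

section

variable {P L G : Type*} [Membership P L] [ProjectivePlane P L] [Group G] [MulAction G P]
  [MulAction G L]

lemma Hyp.fix_line (H : Hyp P L G) {g : G} {p q : P} {l : L} (hpq : p ≠ q) (hp : g • p = p)
    (hq : g • q = q) (hpl : p ∈ l) (hql : q ∈ l) : g • l = l := by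
  have h1 := (H.inc g p l).mp hpl
  have h2 := (H.inc g q l).mp hql
  rw [hp] at h1
  rw [hq] at h2
  exact (eq_or_eq h1 h2 hpl hql).resolve_left hpq

lemma Hyp.fix_point (H : Hyp P L G) {g : G} {p : P} {l m : L} (hlm : l ≠ m) (hl : g • l = l)
    (hm : g • m = m) (hpl : p ∈ l) (hpm : p ∈ m) : g • p = p := by
  have h1 := (H.inc g p l).mp hpl
  have h2 := (H.inc g p m).mp hpm
  rw [hl] at h1
  rw [hm] at h2
  exact (eq_or_eq h1 hpl h2 hpm).resolve_right hlm

lemma Hyp.fix_smul (H : Hyp P L G) {g : G} {p : P} (hp : g • p = p) (h : G) :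
    g • (h • p) = h • p := H.qp g p (h • p) ⟨h, rfl⟩ hp

lemma Hyp.fix_smul_line (H : Hyp P L G) {g : G} {l : L} (hl : g • l = l) (h : G) :
    g • (h • l) = h • l := H.ql g l (h • l) ⟨h, rfl⟩ hl

lemma Hyp.other_point (H : Hyp P L G) {g : G} {x : P} (hx : g • x = x) :
    ∃ y : P, y ≠ x ∧ g • y = y := by
  by_contra hcon
  push Not at hcon
  apply H.nfp
  refine ⟨x, fun h => ?_⟩
  by_contra hne
  exact hcon (h • x) hne (H.fix_smul hx h)

lemma Hyp.other_line (H : Hyp P L G) {g : G} {l : L} (hl : g • l = l) :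
    ∃ m : L, m ≠ l ∧ g • m = m := by
  by_contra hcon
  push Not at hcon
  apply H.nfl
  refine ⟨l, fun h => ?_⟩
  by_contra hne
  exact hcon (h • l) hne (H.fix_smul_line hl h)

lemma Hyp.exists_fix_line (H : Hyp P L G) {g : G} {x : P} (hx : g • x = x) :
    ∃ l : L, g • l = l := by
  obtain ⟨y, hy, hgy⟩ := H.other_point hx
  exact ⟨mkLine hy, H.fix_line hy hgy hx (mkLine_ax hy).1 (mkLine_ax hy).2⟩

lemma Hyp.exists_fix_point (H : Hyp P L G) {g : G} {l : L} (hl : g • l = l) :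
    ∃ x : P, g • x = x := by
  obtain ⟨m, hm, hgm⟩ := H.other_line hl
  exact ⟨mkPoint hm, H.fix_point hm hgm hl (mkPoint_ax hm).1 (mkPoint_ax hm).2⟩

lemma Hyp.not_collinear (H : Hyp P L G) {g : G} {x : P} (hx : g • x = x) (l : L) :
    ∃ y : P, g • y = y ∧ y ∉ l := by
  by_contra hcon
  push Not at hcon
  obtain ⟨y, hyx, hy⟩ := H.other_point hx
  apply H.nfl
  refine ⟨l, fun h => ?_⟩
  have h1 : h • x ∈ h • l := (H.inc h x l).mp (hcon x hx)
  have h2 : h • y ∈ h • l := (H.inc h y l).mp (hcon y hy)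
  have h3 : h • x ∈ l := hcon _ (H.fix_smul hx h)
  have h4 : h • y ∈ l := hcon _ (H.fix_smul hy h)
  refine (eq_or_eq h1 h2 h3 h4).resolve_left ?_
  intro h5
  exact hyx (smul_left_cancel h h5).symm

lemma Hyp.not_concurrent (H : Hyp P L G) {g : G} {l : L} (hl : g • l = l) (p : P) :
    ∃ m : L, g • m = m ∧ p ∉ m := by
  by_contra hcon
  push Not at hcon
  obtain ⟨m, hml, hm⟩ := H.other_line hl
  apply H.nfp
  refine ⟨p, fun h => ?_⟩
  have h1 : h • p ∈ h • l := (H.inc h p l).mp (hcon l hl)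
  have h2 : h • p ∈ h • m := (H.inc h p m).mp (hcon m hm)
  have h3 : p ∈ h • l := hcon _ (H.fix_smul_line hl h)
  have h4 : p ∈ h • m := hcon _ (H.fix_smul_line hm h)
  refine (eq_or_eq h1 h3 h2 h4).resolve_right ?_
  intro h5
  exact hml (smul_left_cancel h h5).symm

lemma Hyp.two_points (H : Hyp P L G) {g : G} {l : L} (hl : g • l = l) :
    ∃ x y : P, x ≠ y ∧ g • x = x ∧ g • y = y ∧ x ∈ l ∧ y ∈ l := by
  obtain ⟨m, hml, hm⟩ := H.other_line hl
  obtain ⟨m', hm', hpm'⟩ := H.not_concurrent hl (mkPoint (P := P) hml)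
  have hx := mkPoint_ax (P := P) hml
  have hml' : m' ≠ l := by rintro rfl; exact hpm' hx.2
  have hy := mkPoint_ax (P := P) hml'
  refine ⟨mkPoint hml, mkPoint hml', ?_, H.fix_point hml hm hl hx.1 hx.2,
    H.fix_point hml' hm' hl hy.1 hy.2, hx.2, hy.2⟩
  intro h
  rw [h] at hpm'
  exact hpm' hy.1

/-- A configuration of fixed points and lines. -/
def Conf (P L : Type*) {G : Type*} [Membership P L] [Group G] [MulAction G P] [MulAction G L] (g : G) :
    Prop :=
  ∃ (p₁ p₂ p₃ : P) (l₁ l₂ l₃ : L), g • p₁ = p₁ ∧ g • p₂ = p₂ ∧ g • p₃ = p₃ ∧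
    g • l₁ = l₁ ∧ g • l₂ = l₂ ∧ g • l₃ = l₃ ∧
    p₁ ∉ l₂ ∧ p₁ ∉ l₃ ∧ p₂ ∉ l₁ ∧ p₂ ∈ l₂ ∧ p₂ ∈ l₃ ∧ p₃ ∉ l₁ ∧ p₃ ∈ l₂ ∧ p₃ ∉ l₃

lemma Hyp.conf_of_quad (H : Hyp P L G) {g : G} {a b e f : P} {l m : L}
    (ha : g • a = a) (hb : g • b = b) (he : g • e = e) (hf : g • f = f)
    (hab : a ≠ b) (hef : e ≠ f) (hal : a ∈ l) (hbl : b ∈ l) (hem : e ∈ m) (hfm : f ∈ m)
    (ham : a ∉ m) (hbm : b ∉ m) (hel : e ∉ l) (hfl : f ∉ l) : Conf P L g := by
  have hae : a ≠ e := by rintro rfl; exact ham hem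
  have hx := mkLine_ax (L := L) hae
  refine ⟨f, a, b, m, l, mkLine hae, hf, ha, hb, H.fix_line hef he hf hem hfm,
    H.fix_line hab ha hb hal hbl, H.fix_line hae ha he hx.1 hx.2, hfl, ?_, ham, hal, hx.1, hbm,
    hbl, ?_⟩
  · intro h
    rcases eq_or_eq hx.2 h hem hfm with h1 | h1
    · exact hef h1
    · rw [h1] at hx; exact ham hx.1
  · intro h
    rcases eq_or_eq hx.1 h hal hbl with h1 | h1
    · exact hab h1
    · rw [h1] at hx; exact hel hx.2

omit [MulAction G L] in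
lemma pick {g : G} {x y z : P} {l m : L} (hxy : x ≠ y) (hyz : y ≠ z) (hxz : x ≠ z)
    (hx : x ∈ l) (hy : y ∈ l) (hz : z ∈ l) (hlm : l ≠ m) (gx : g • x = x) (gy : g • y = y)
    (gz : g • z = z) :
    ∃ u v : P, u ≠ v ∧ u ∈ l ∧ v ∈ l ∧ u ∉ m ∧ v ∉ m ∧ g • u = u ∧ g • v = v := by
  by_cases h1 : x ∈ m
  · refine ⟨y, z, hyz, hy, hz, ?_, ?_, gy, gz⟩
    · intro h; exact hlm ((eq_or_eq hx hy h1 h).resolve_left hxy)
    · intro h; exact hlm ((eq_or_eq hx hz h1 h).resolve_left hxz)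
  · by_cases h2 : y ∈ m
    · refine ⟨x, z, hxz, hx, hz, h1, ?_, gx, gz⟩
      intro h; exact hlm ((eq_or_eq hy hz h2 h).resolve_left hyz)
    · exact ⟨x, y, hxy, hx, hy, h1, h2, gx, gy⟩

lemma Hyp.conf_of_three (H : Hyp P L G) {g : G} {x y z : P} {l : L} (hxy : x ≠ y) (hyz : y ≠ z)
    (hxz : x ≠ z) (hx : x ∈ l) (hy : y ∈ l) (hz : z ∈ l) (gx : g • x = x) (gy : g • y = y)
    (gz : g • z = z) : Conf P L g := by
  obtain ⟨h, hh⟩ : ∃ h : G, h • l ≠ l := by
    by_contra hcon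
    push Not at hcon
    exact H.nfl ⟨l, hcon⟩
  obtain ⟨a, b, hab, hal, hbl, ham, hbm, ga, gb⟩ := pick (m := h • l) hxy hyz hxz hx hy hz hh.symm gx gy gz
  obtain ⟨e, f, hef, hem, hfm, hel, hfl, ge, gf⟩ := pick (l := h • l) (m := l)
    (x := h • x) (y := h • y) (z := h • z)
    (fun e => hxy (smul_left_cancel h e)) (fun e => hyz (smul_left_cancel h e))
    (fun e => hxz (smul_left_cancel h e)) ((H.inc h x l).mp hx) ((H.inc h y l).mp hy)
    ((H.inc h z l).mp hz) hh (H.fix_smul gx h) (H.fix_smul gy h) (H.fix_smul gz h)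
  exact H.conf_of_quad ga gb ge gf hab hef hal hbl hem hfm ham hbm hel hfl

lemma Hyp.conf_or_small (H : Hyp P L G) {g : G} {x : P} (gx : g • x = x) :
    Conf P L g ∨ Nat.card {p : P // g • p = p} ≤ 3 := by
  classical
  obtain ⟨y, hyx, gy⟩ := H.other_point gx
  have hl := mkLine_ax (L := L) hyx
  obtain ⟨z, gz, hz⟩ := H.not_collinear gx (mkLine hyx : L)
  have hzy : z ≠ y := by rintro rfl; exact hz hl.1
  have hzx : z ≠ x := by rintro rfl; exact hz hl.2
  by_cases hall : ∀ d : P, g • d = d → d = x ∨ d = y ∨ d = z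
  · right
    have h1 : {p : P | g • p = p} ⊆ ((({x, y, z} : Finset P)) : Set P) := by
      intro p hp
      rw [Finset.mem_coe, Finset.mem_insert, Finset.mem_insert, Finset.mem_singleton]
      exact hall p hp
    have h2 := Set.ncard_le_ncard h1 (Finset.finite_toSet _)
    rw [Set.ncard_coe_finset] at h2
    have h3 : Nat.card {p : P // g • p = p} = {p : P | g • p = p}.ncard := Nat.card_coe_set_eq _
    rw [h3]
    exact h2.trans Finset.card_le_three
  · left
    push Not at hall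
    obtain ⟨d, gd, hdx, hdy, hdz⟩ := hall
    by_cases h1 : d ∈ (mkLine hyx : L)
    · exact H.conf_of_three (x := y) (y := x) (z := d) hyx hdx.symm hdy.symm hl.1 hl.2 h1 gy gx gd
    have hl2 := mkLine_ax (L := L) hzy
    by_cases h2 : d ∈ (mkLine hzy : L)
    · exact H.conf_of_three (x := z) (y := y) (z := d) hzy hdy.symm hdz.symm hl2.1 hl2.2 h2 gz gy gd
    have hl3 := mkLine_ax (L := L) hzx
    by_cases h3 : d ∈ (mkLine hzx : L)
    · exact H.conf_of_three (x := z) (y := x) (z := d) hzx hdx.symm hdz.symm hl3.1 hl3.2 h3 gz gx gd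
    have hzd : z ≠ d := hdz.symm
    have hl4 := mkLine_ax (L := L) hzd
    refine H.conf_of_quad gy gx gz gd hyx hzd hl.1 hl.2 hl4.1 hl4.2 ?_ ?_ hz h1
    · intro h
      have := (eq_or_eq hl4.1 h hl2.1 hl2.2).resolve_left hzy
      rw [← this] at h2
      exact h2 hl4.2
    · intro h
      have := (eq_or_eq hl4.1 h hl3.1 hl3.2).resolve_left hzx
      rw [← this] at h3
      exact h3 hl4.2

/-- A fixed point with a non-fixed line through it. -/
lemma Hyp.exists_moved_line (H : Hyp P L G) {g : G} (hg : g ≠ 1) {x : P} (gx : g • x = x) :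
    ∃ (x₀ : P) (l : L), g • x₀ = x₀ ∧ x₀ ∈ l ∧ g • l ≠ l := by
  by_contra hcon
  push Not at hcon
  apply hg
  apply H.faith
  intro p
  by_cases hxp : g • p = p
  · exact hxp
  exfalso
  obtain ⟨y, hyx, gy⟩ := H.other_point gx
  obtain ⟨z, gz, hz⟩ := H.not_collinear gx (mkLine hyx : L)
  have hl := mkLine_ax (L := L) hyx
  have hpx : p ≠ x := by rintro rfl; exact hxp gx
  have hpy : p ≠ y := by rintro rfl; exact hxp gy
  have hpz : p ≠ z := by rintro rfl; exact hxp gz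
  have h1 := mkLine_ax (L := L) hpx
  have h2 := mkLine_ax (L := L) hpy
  have h3 := mkLine_ax (L := L) hpz
  have g1 : g • (mkLine hpx : L) = mkLine hpx := hcon x _ gx h1.2
  have g2 : g • (mkLine hpy : L) = mkLine hpy := hcon y _ gy h2.2
  have g3 : g • (mkLine hpz : L) = mkLine hpz := hcon z _ gz h3.2
  by_cases e12 : (mkLine hpx : L) = mkLine hpy
  · by_cases e13 : (mkLine hpx : L) = mkLine hpz
    · -- all three points are collinear
      rw [← e12] at h2
      rw [← e13] at h3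
      have := (eq_or_eq hl.1 hl.2 h2.2 h1.2).resolve_left hyx
      rw [this] at hz
      exact hz h3.2
    · exact hxp (H.fix_point e13 g1 g3 h1.1 h3.1)
  · exact hxp (H.fix_point e12 g1 g2 h1.1 h2.1)

end

end Run7.h680.TypeH
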