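import Mathlib
import Pool.Agent.Run7.h680.Geo

set_option autoImplicit false
set_option linter.unusedSectionVars false

/-!
Counting fixed points of quasiregular collineation groups.
-/

namespace Run7.h680.TypeH

open Configuration Configuration.Nondegenerate
open Configuration.HasPoints (mkPoint mkPoint_ax)
open Configuration.HasLines (mkLine mkLine_ax)

section

variable {P L G : Type*} [Membership P L] [ProjectivePlane P L] [Group G] [MulAction G P]
  [MulAction G L]

/-- Fixed points. -/
abbrev SP (P : Type*) {G : Type*} [Group G] [MulAction G P] (g : G) := {p : P // g • p = p}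

/-- Incidence of fixed points and fixed lines. -/
@[instance_reducible]
def subMem (P L : Type*) {G : Type*} [Membership P L] [Group G] [MulAction G P]
    [MulAction G L] (g : G) : Membership (SP P g) (SP L g) := ⟨fun l p => p.1 ∈ l.1⟩

/-- The subplane of fixed points and lines. -/
@[instance_reducible]
noncomputable def Hyp.subplane (H : Hyp P L G) {g : G} (hc : Conf P L g) :
    @ProjectivePlane (SP P g) (SP L g) (subMem P L g) :=
  letI := subMem P L g
  { exists_point := by
      intro l
      obtain ⟨p₁, p₂, p₃, l₁, l₂, l₃, h1, -⟩ := hc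
      obtain ⟨y, gy, hy⟩ := H.not_collinear h1 l.1
      exact ⟨⟨y, gy⟩, hy⟩
    exists_line := by
      intro p
      obtain ⟨p₁, p₂, p₃, l₁, l₂, l₃, -, -, -, h4, -⟩ := hc
      obtain ⟨m, gm, hm⟩ := H.not_concurrent h4 p.1
      exact ⟨⟨m, gm⟩, hm⟩
    eq_or_eq := by
      intro p q l m h1 h2 h3 h4
      rcases eq_or_eq (P := P) (L := L) h1 h2 h3 h4 with h | h
      · exact Or.inl (Subtype.ext h)
      · exact Or.inr (Subtype.ext h)
    mkPoint := fun {l m} h => ⟨mkPoint (P := P) (L := L) (fun e => h (Subtype.ext e)),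
      H.fix_point (fun e => h (Subtype.ext e)) l.2 m.2
        (mkPoint_ax (P := P) (L := L) (fun e => h (Subtype.ext e))).1
        (mkPoint_ax (P := P) (L := L) (fun e => h (Subtype.ext e))).2⟩
    mkPoint_ax := fun {l m} h => mkPoint_ax (P := P) (L := L) (fun e => h (Subtype.ext e))
    mkLine := fun {p q} h => ⟨mkLine (P := P) (L := L) (fun e => h (Subtype.ext e)),
      H.fix_line (fun e => h (Subtype.ext e)) p.2 q.2
        (mkLine_ax (P := P) (L := L) (fun e => h (Subtype.ext e))).1
        (mkLine_ax (P := P) (L := L) (fun e => h (Subtype.ext e))).2⟩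
    mkLine_ax := fun {p q} h => mkLine_ax (P := P) (L := L) (fun e => h (Subtype.ext e))
    exists_config := by
      obtain ⟨p₁, p₂, p₃, l₁, l₂, l₃, h1, h2, h3, h4, h5, h6, h⟩ := hc
      exact ⟨⟨p₁, h1⟩, ⟨p₂, h2⟩, ⟨p₃, h3⟩, ⟨l₁, h4⟩, ⟨l₂, h5⟩, ⟨l₃, h6⟩, h⟩ }

lemma Hyp.sub_count (H : Hyp P L G) [Finite P] {g : G} (hg : g ≠ 1) (hc : Conf P L g) :
    ∃ m : ℕ, Nat.card (SP P g) = m ^ 2 + m + 1 ∧ m ^ 2 ≤ ProjectivePlane.order P L := by
  classical
  have hLfin : Finite L := finite_lines P L
  have hx := hc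
  obtain ⟨x, -, -, -, -, -, gx, -⟩ := hx
  obtain ⟨x₀, h, gx₀, hx₀, gh⟩ := H.exists_moved_line hg gx
  let _ := subMem P L g
  let _ := H.subplane hc
  have := Fintype.ofFinite (SP P g)
  have := Fintype.ofFinite (SP L g)
  set m := ProjectivePlane.order (SP P g) (SP L g) with hm
  have c1 : Nat.card (SP P g) = m ^ 2 + m + 1 := by
    rw [Nat.card_eq_fintype_card]; exact ProjectivePlane.card_points _ _
  have c2 : Nat.card (SP L g) = m ^ 2 + m + 1 := by
    rw [Nat.card_eq_fintype_card]; exact ProjectivePlane.card_lines _ _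
  refine ⟨m, c1, ?_⟩
  let x0' : SP P g := ⟨x₀, gx₀⟩
  have c3 : {l : SP L g | x0' ∈ l}.ncard = m + 1 := by
    have := ProjectivePlane.lineCount_eq (SP L g) x0'
    rw [← hm] at this
    rw [← this, lineCount]
    exact (Nat.card_coe_set_eq _).symm
  have c4 := Set.ncard_add_ncard_compl {l : SP L g | x0' ∈ l}
  rw [c3, c2] at c4
  have c5 : ({l : SP L g | x0' ∈ l}ᶜ).ncard = m ^ 2 := by omega
  have c6 : {p : P | p ∈ h}.ncard = ProjectivePlane.order P L + 1 := by
    rw [← ProjectivePlane.pointCount_eq P h, pointCount]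
    exact (Nat.card_coe_set_eq _).symm
  have c7 : ({p : P | p ∈ h} \ {x₀}).ncard = ProjectivePlane.order P L := by
    rw [Set.ncard_sdiff_singleton_of_mem (by exact hx₀), c6]
    rfl
  rw [← c5, ← c7]
  have hne : ∀ l : SP L g, l.1 ≠ h := by
    intro l hl
    apply gh
    rw [← hl]
    exact l.2
  refine Set.ncard_le_ncard_of_injOn (fun l : SP L g => (mkPoint (P := P) (hne l) : P)) ?_ ?_
    (Set.toFinite _)
  · intro l hl
    have hax := mkPoint_ax (P := P) (hne l)
    refine ⟨hax.2, ?_⟩
    rw [Set.mem_singleton_iff]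
    intro he
    apply hl
    rw [he] at hax
    exact hax.1
  · intro l hl l' hl' hll
    by_contra hne'
    have hax := mkPoint_ax (P := P) (hne l)
    have hax' := mkPoint_ax (P := P) (hne l')
    simp only at hll
    rw [← hll] at hax'
    have gz : g • (mkPoint (P := P) (hne l) : P) = mkPoint (P := P) (hne l) :=
      H.fix_point (fun e => hne' (Subtype.ext e)) l.2 l'.2 hax.1 hax'.1
    have hzx : (mkPoint (P := P) (hne l) : P) ≠ x₀ := by
      intro he
      apply hl
      rw [he] at hax
      exact hax.1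
    exact gh (H.fix_line hzx gz gx₀ hax.2 hx₀)

lemma card_modEq_fixed [Finite P] [Finite G] {g : G} {s : ℕ} (hs : s.Prime) (hgs : orderOf g = s) :
    Nat.card P ≡ Nat.card (SP P g) [MOD s] := by
  have : Fact s.Prime := ⟨hs⟩
  have hp : IsPGroup s (Subgroup.zpowers g) := by
    apply IsPGroup.of_card (n := 1)
    rw [Nat.card_zpowers, hgs, pow_one]
  have h1 := hp.card_modEq_card_fixedPoints P
  have h2 : MulAction.fixedPoints (Subgroup.zpowers g) P = {p : P | g • p = p} := by
    ext p
    constructor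
    · intro h
      exact h ⟨g, Subgroup.mem_zpowers g⟩
    · intro h k
      have h3 : Subgroup.zpowers g ≤ MulAction.stabilizer G p := by
        rw [Subgroup.zpowers_le]
        exact h
      exact h3 k.2
  rw [h2] at h1
  exact h1

lemma Hyp.bound_prime (H : Hyp P L G) [Finite P] [Finite G] {k : ℕ} (hk : 3 ≤ k)
    (hord : ProjectivePlane.order P L = k ^ 2) (hG : Nat.card G = (k ^ 2 - k + 1) ^ 2)
    {g : G} {s : ℕ} (hs : s.Prime) (hgs : orderOf g = s) {x : P} (gx : g • x = x) :
    Nat.card (SP P g) ≤ k ^ 2 - k + 1 := by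
  have hLfin : Finite L := finite_lines P L
  have hg : g ≠ 1 := by
    rintro rfl
    rw [orderOf_one] at hgs
    exact hs.one_lt.ne hgs
  obtain ⟨c, hc⟩ := Nat.exists_eq_add_of_le hk
  have hPn : k ^ 2 - k + 1 = c ^ 2 + 5 * c + 7 := by
    rw [hc]
    have : (3 + c) ^ 2 = (3 + c) + (6 + 5 * c + c ^ 2) := by ring
    rw [this]
    omega
  rcases H.conf_or_small gx with hcf | hsm
  · obtain ⟨m, hm1, hm2⟩ := H.sub_count hg hcf
    rw [hord] at hm2
    have hmk : m ≤ k := by
      by_contra hcon
      push Not at hcon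
      nlinarith
    rcases Nat.lt_or_ge m k with hlt | hge
    · rw [hm1, hPn]
      have : m ≤ c + 2 := by omega
      nlinarith
    · exfalso
      have hmk' : m = k := le_antisymm hmk hge
      subst hmk'
      have hmod := card_modEq_fixed (P := P) hs hgs
      have := Fintype.ofFinite P
      rw [hm1, Nat.card_eq_fintype_card, ProjectivePlane.card_points P L, hord] at hmod
      have hsG : s ∣ m ^ 2 - m + 1 := by
        have h1 : s ∣ Nat.card G := by rw [← hgs]; exact orderOf_dvd_natCard g
        rw [hG] at h1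
        exact hs.dvd_of_dvd_pow h1
      have hfac : (m ^ 2) ^ 2 + m ^ 2 + 1 = (m ^ 2 - m + 1) * (m ^ 2 + m + 1) := by
        rw [hPn, hc]
        ring
      rw [hfac] at hmod
      have h2 : s ∣ m ^ 2 + m + 1 := by
        have h3 : (m ^ 2 - m + 1) * (m ^ 2 + m + 1) ≡ 0 [MOD s] :=
          (Nat.modEq_zero_iff_dvd).mpr (hsG.mul_right _)
        exact (Nat.modEq_zero_iff_dvd).mp (hmod.symm.trans h3)
      have h4 : s ∣ 2 * m := by
        have h5 := (Nat.dvd_sub h2 hsG)
        have h6 : m ^ 2 + m + 1 - (m ^ 2 - m + 1) = 2 * m := by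
          rw [hPn, hc]
          have : (3 + c) ^ 2 + (3 + c) + 1 = (c ^ 2 + 5 * c + 7) + 2 * (3 + c) := by ring
          rw [this, Nat.add_sub_cancel_left]
        rwa [h6] at h5
      rcases (hs.dvd_mul).mp h4 with h5 | h5
      · have hs2 : s = 2 := (Nat.prime_dvd_prime_iff_eq hs Nat.prime_two).mp h5
        rw [hs2, hPn] at hsG
        have h7 : c ^ 2 + 5 * c + 7 = c * (c + 1) + 2 * (2 * c + 3) + 1 := by ring
        have h8 : 2 ∣ c * (c + 1) := (Nat.even_mul_succ_self c).two_dvd
        omega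
      · have h7 : s ∣ m ^ 2 - m + 1 - m * (m - 1) := Nat.dvd_sub hsG (h5.mul_right _)
        have h8 : m ^ 2 - m + 1 - m * (m - 1) = 1 := by
          have : m ^ 2 - m = m * (m - 1) := by rw [pow_two, Nat.mul_sub, mul_one]
          rw [this, Nat.add_sub_cancel_left]
        rw [h8] at h7
        exact hs.one_lt.ne' (Nat.dvd_one.mp h7)
  · rw [hPn]; exact hsm.trans (by omega)

/-- Every nontrivial element with a fixed point has at most `k ^ 2 - k + 1` fixed points. -/
theorem Hyp.bound (H : Hyp P L G) [Finite P] [Finite G] {k : ℕ} (hk : 3 ≤ k)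
    (hord : ProjectivePlane.order P L = k ^ 2) (hG : Nat.card G = (k ^ 2 - k + 1) ^ 2)
    {g : G} (hg : g ≠ 1) {x : P} (gx : g • x = x) :
    Nat.card (SP P g) ≤ k ^ 2 - k + 1 := by
  have h1 : orderOf g ≠ 1 := by rwa [Ne, orderOf_eq_one_iff]
  obtain ⟨s, hs, hsd⟩ := Nat.exists_prime_and_dvd h1
  have hpos : 0 < orderOf g := orderOf_pos g
  have h2 : orderOf (g ^ (orderOf g / s)) = s := orderOf_pow_orderOf_div hpos.ne' hsd
  have hsub : ∀ p : P, g • p = p → g ^ (orderOf g / s) • p = p := by
    intro p hp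
    have : g ∈ MulAction.stabilizer G p := hp
    exact Subgroup.pow_mem _ this _
  have h3 := H.bound_prime hk hord hG hs h2 (hsub x gx)
  refine le_trans ?_ h3
  exact Nat.card_le_card_of_injective (fun p : SP P g => (⟨p.1, hsub p.1 p.2⟩ : SP P (g ^ (orderOf g / s))))
    (fun p q h => Subtype.ext (by simpa using h))

end

end Run7.h680.TypeH
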