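import Mathlib
import Pool.Agent.Run7.h680.Geo2

set_option autoImplicit false
set_option linter.unusedSectionVars false

/-!
Orbit structure of quasiregular collineation groups of type (h).
-/

namespace Run7.h680.TypeH

open Configuration Configuration.Nondegenerate
open Configuration.HasPoints (mkPoint mkPoint_ax)
open Configuration.HasLines (mkLine mkLine_ax)
open MulAction

/-- All hypotheses of type (h). -/
structure Big (P L G : Type*) [Membership P L] [ProjectivePlane P L] [Group G] [MulAction G P]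
    [MulAction G L] (k : ℕ) : Prop where
  H : Hyp P L G
  hk : 3 ≤ k
  hord : ProjectivePlane.order P L = k ^ 2
  hG : Nat.card G = (k ^ 2 - k + 1) ^ 2
  h2 : 2 * Nat.card G > (k ^ 2) ^ 2 + k ^ 2 + 1
  hΩ : Nat.card (orbitRel.Quotient G P) = 2 * k + 1

section

variable {P L G : Type*} [Membership P L] [ProjectivePlane P L] [Group G] [MulAction G P]
  [MulAction G L] [Finite P] [Finite G] {k : ℕ}

lemma Big.orbit_le (B : Big P L G k) {g : G} (hg : g ≠ 1) {x : P} (gx : g • x = x) :
    (orbit G x).ncard ≤ k ^ 2 - k + 1 := by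
  refine le_trans ?_ (B.H.bound B.hk B.hord B.hG hg gx)
  have h1 : Nat.card (SP P g) = {p : P | g • p = p}.ncard := Nat.card_coe_set_eq _
  rw [h1]
  exact Set.ncard_le_ncard (fun y hy => B.H.qp g x y hy gx) (Set.toFinite _)

omit [Finite P] [Finite G] [Membership P L] [ProjectivePlane P L] [MulAction G L] in
lemma orbit_reg {x : P} (hx : ∀ g : G, g • x = x → g = 1) : (orbit G x).ncard = Nat.card G := by
  rw [← index_stabilizer]
  have : stabilizer G x = ⊥ := by
    rw [eq_bot_iff]
    intro g hg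
    exact Subgroup.mem_bot.mpr (hx g hg)
  rw [this, Subgroup.index_bot]

lemma Big.card_P (B : Big P L G k) : Nat.card P = (k ^ 2) ^ 2 + k ^ 2 + 1 := by
  have hLfin : Finite L := finite_lines P L
  have := Fintype.ofFinite P
  rw [Nat.card_eq_fintype_card, ProjectivePlane.card_points P L, B.hord]

lemma Big.card_L (B : Big P L G k) : Nat.card L = (k ^ 2) ^ 2 + k ^ 2 + 1 := by
  have hLfin : Finite L := finite_lines P L
  have := Fintype.ofFinite L
  rw [Nat.card_eq_fintype_card, ProjectivePlane.card_lines P L, B.hord]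

lemma Big.total (B : Big P L G k) [Fintype (orbitRel.Quotient G P)] :
    ∑ ω : orbitRel.Quotient G P, ω.orbit.ncard = (k ^ 2) ^ 2 + k ^ 2 + 1 := by
  rw [← B.card_P, Nat.card_congr (selfEquivSigmaOrbits' G P), Nat.card_sigma]
  rfl

lemma Big.Pn_eq (B : Big P L G k) : ∃ c, k = 3 + c ∧ k ^ 2 - k + 1 = c ^ 2 + 5 * c + 7 := by
  obtain ⟨c, hc⟩ := Nat.exists_eq_add_of_le B.hk
  refine ⟨c, hc, ?_⟩
  rw [hc]
  have : (3 + c) ^ 2 = (3 + c) + (6 + 5 * c + c ^ 2) := by ring
  rw [this]
  omega

/-- The orbit structure. -/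
lemma Big.structure (B : Big P L G k) :
    ∃ x₀ : P, (∀ g : G, g • x₀ = x₀ → g = 1) ∧ ∀ x : P, x ∉ orbit G x₀ →
      (orbit G x).ncard = k ^ 2 - k + 1 ∧ ∃ g : G, g ≠ 1 ∧ g • x = x := by
  classical
  have := Fintype.ofFinite (orbitRel.Quotient G P)
  obtain ⟨c, hc, hPn⟩ := B.Pn_eq
  have htot := B.total
  have hΩ := B.hΩ
  rw [Nat.card_eq_fintype_card] at hΩ
  -- there is a regular orbit
  have hex : ∃ x₀ : P, ∀ g : G, g • x₀ = x₀ → g = 1 := by
    by_contra hcon
    push Not at hcon
    have h1 : ∑ ω : orbitRel.Quotient G P, ω.orbit.ncard ≤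
        ∑ ω : orbitRel.Quotient G P, (k ^ 2 - k + 1) := by
      apply Finset.sum_le_sum
      intro ω _
      induction ω using Quotient.inductionOn' with
      | _ x =>
        obtain ⟨g, gx, hg⟩ := hcon x
        exact B.orbit_le hg gx
    rw [htot, Finset.sum_const, Finset.card_univ, hΩ, smul_eq_mul, hPn, hc] at h1
    nlinarith
  obtain ⟨x₀, hx₀⟩ := hex
  refine ⟨x₀, hx₀, ?_⟩
  -- all other orbits are nonregular
  have hnr : ∀ x : P, x ∉ orbit G x₀ → ∃ g : G, g ≠ 1 ∧ g • x = x := by
    intro x hx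
    by_contra hcon
    push Not at hcon
    have hx' : ∀ g : G, g • x = x → g = 1 := by
      intro g gx
      by_contra hg
      exact hcon g hg gx
    have h1 := orbit_reg hx₀
    have h2 := orbit_reg hx'
    have h3 : Disjoint (orbit G x₀) (orbit G x) := by
      rw [Set.disjoint_left]
      intro y hy hy'
      apply hx
      rw [← orbit_eq_iff.mpr hy, orbit_eq_iff.mpr hy']
      exact mem_orbit_self x
    have h4 := Set.ncard_union_eq h3
    have h5 : (orbit G x₀ ∪ orbit G x).ncard ≤ Nat.card P := Set.ncard_le_card _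
    rw [h4, h1, h2, B.card_P] at h5
    have := B.h2
    omega
  intro x hx
  refine ⟨?_, hnr x hx⟩
  set ω₀ : orbitRel.Quotient G P := Quotient.mk'' x₀ with hω₀
  have hne : ∀ ω : orbitRel.Quotient G P, ω ≠ ω₀ → ω.orbit.ncard ≤ k ^ 2 - k + 1 := by
    intro ω hω
    induction ω using Quotient.inductionOn' with
    | _ y =>
      obtain ⟨g, hg, gy⟩ := hnr y (by
        intro hy
        apply hω
        exact Quotient.sound' hy)
      exact B.orbit_le hg gy
  have hω0 : ω₀.orbit.ncard = (k ^ 2 - k + 1) ^ 2 := by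
    rw [← B.hG]
    exact orbit_reg hx₀
  rw [← Finset.add_sum_erase Finset.univ _ (Finset.mem_univ ω₀), hω0] at htot
  have hle : (orbit G x).ncard ≤ k ^ 2 - k + 1 := by
    obtain ⟨g, hg, gx⟩ := hnr x hx
    exact B.orbit_le hg gx
  refine le_antisymm hle ?_
  by_contra hlt
  push Not at hlt
  have hsum : ∑ ω ∈ Finset.univ.erase ω₀, ω.orbit.ncard <
      ∑ ω ∈ Finset.univ.erase ω₀, (k ^ 2 - k + 1) := by
    apply Finset.sum_lt_sum
    · intro ω hω
      exact hne ω (Finset.ne_of_mem_erase hω)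
    · refine ⟨Quotient.mk'' x, ?_, hlt⟩
      rw [Finset.mem_erase]
      refine ⟨?_, Finset.mem_univ _⟩
      intro h
      exact hx (Quotient.exact' h)
  rw [Finset.sum_const, Finset.card_erase_of_mem (Finset.mem_univ _), Finset.card_univ, hΩ,
    smul_eq_mul, Nat.add_sub_cancel] at hsum
  rw [hPn] at htot hsum
  rw [hc] at htot hsum
  nlinarith

/-- Two fixed points of a nontrivial element lie in one orbit. -/
lemma Big.same_orbit (B : Big P L G k) {g : G} (hg : g ≠ 1) {x y : P} (gx : g • x = x)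
    (gy : g • y = y) : y ∈ orbit G x := by
  obtain ⟨x₀, hx₀, hst⟩ := B.structure
  obtain ⟨c, hc, hPn⟩ := B.Pn_eq
  by_contra hcon
  have hreg : ∀ z : P, g • z = z → z ∉ orbit G x₀ := by
    rintro z gz ⟨h, rfl⟩
    apply hg
    apply hx₀
    have := B.H.fix_smul gz h⁻¹
    simpa using this
  have h1 := (hst x (hreg x gx)).1
  have h2 := (hst y (hreg y gy)).1
  have h3 : Disjoint (orbit G x) (orbit G y) := by
    rw [Set.disjoint_left]
    intro z hz hz'
    apply hcon
    rw [← orbit_eq_iff.mpr hz, orbit_eq_iff.mpr hz']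
    exact mem_orbit_self y
  have h4 := Set.ncard_union_eq h3
  have h5 : (orbit G x ∪ orbit G y).ncard ≤ {p : P | g • p = p}.ncard := by
    apply Set.ncard_le_ncard _ (Set.toFinite _)
    rintro z (hz | hz)
    · exact B.H.qp g x z hz gx
    · exact B.H.qp g y z hz gy
  have h6 := B.H.bound B.hk B.hord B.hG hg gx
  have h7 : Nat.card (SP P g) = {p : P | g • p = p}.ncard := Nat.card_coe_set_eq _
  rw [h4, h1, h2, ← h7] at h5
  omega

/-- Tangent lines. -/
lemma Big.tangent (B : Big P L G k) {z : P} {g : G} (hg : g ≠ 1) (gz : g • z = z) :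
    ∃ l : L, z ∈ l ∧ (∀ y ∈ orbit G z, y ∈ l → y = z) ∧ ∀ h : G, h • l = l → h = 1 := by
  classical
  have hLfin : Finite L := finite_lines P L
  obtain ⟨c, hc, hPn⟩ := B.Pn_eq
  have hex : ∃ l : L, z ∈ l ∧ ∀ y ∈ orbit G z, y ∈ l → y = z := by
    by_contra hcon
    push Not at hcon
    choose f hf1 hf2 hf3 using hcon
    have h1 : {l : L | z ∈ l}.ncard = k ^ 2 + 1 := by
      rw [← B.hord, ← ProjectivePlane.lineCount_eq L z, lineCount]
      exact (Nat.card_coe_set_eq _).symm
    have h2 : (orbit G z \ {z}).ncard = (orbit G z).ncard - 1 :=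
      Set.ncard_sdiff_singleton_of_mem (mem_orbit_self z)
    have h3 := B.orbit_le hg gz
    have h4 : {l : L | z ∈ l}.ncard ≤ (orbit G z \ {z}).ncard := by
      refine Set.ncard_le_ncard_of_injOn (fun l => if h : z ∈ l then f l h else z) ?_ ?_ (Set.toFinite _)
      · intro l hl
        simp only [Set.mem_ofPred_eq] at hl
        simp only [dif_pos hl]
        exact ⟨hf1 l hl, hf3 l hl⟩
      · intro l hl m hm hlm
        simp only [Set.mem_ofPred_eq] at hl hm
        simp only [dif_pos hl, dif_pos hm] at hlm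
        have e1 := hf2 l hl
        have e2 := hf2 m hm
        rw [← hlm] at e2
        exact (eq_or_eq e1 hl e2 hm).resolve_left (hf3 l hl)
    rw [h1, h2] at h4
    have h5 : k ^ 2 = c ^ 2 + 6 * c + 9 := by rw [hc]; ring
    omega
  obtain ⟨l, hzl, hl⟩ := hex
  refine ⟨l, hzl, hl, ?_⟩
  intro h hhl
  by_contra hh
  obtain ⟨y₁, y₂, hne, g1, g2, hy1, hy2⟩ := B.H.two_points hhl
  have hso := B.same_orbit hh g1 g2
  by_cases hz : y₁ ∈ orbit G z
  · have e1 := hl y₁ hz hy1
    have hz2 : y₂ ∈ orbit G z := by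
      rw [← orbit_eq_iff.mpr hz]; exact hso
    have e2 := hl y₂ hz2 hy2
    exact hne (e1.trans e2.symm)
  · -- the stabilizer of `y₁` fixes `l`, hence `z`
    have e3 : h • y₂ = y₂ := g2
    have e4 : h • z ∈ l := by
      have := (B.H.inc h z l).mp hzl
      rwa [hhl] at this
    have e5 := hl (h • z) (mem_orbit z h) e4
    exact hz (by
      have := B.same_orbit hh e5 g1
      exact this)

/-- Two lines with trivial stabilizer lie in the same orbit. -/
lemma Big.regular_lines (B : Big P L G k) {l m : L} (hl : ∀ g : G, g • l = l → g = 1)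
    (hm : ∀ g : G, g • m = m → g = 1) : m ∈ orbit G l := by
  by_contra hcon
  have hLfin : Finite L := finite_lines P L
  have h1 := orbit_reg hl
  have h2 := orbit_reg hm
  have h3 : Disjoint (orbit G l) (orbit G m) := by
    rw [Set.disjoint_left]
    intro z hz hz'
    apply hcon
    rw [← orbit_eq_iff.mpr hz, orbit_eq_iff.mpr hz']
    exact mem_orbit_self m
  have h4 := Set.ncard_union_eq h3
  have h5 : (orbit G l ∪ orbit G m).ncard ≤ Nat.card L := Set.ncard_le_card _
  rw [h4, h1, h2, B.card_L] at h5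
  have := B.h2
  omega

end

end Run7.h680.TypeH
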