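import Mathlib
import Pool.Agent.Run7.h680.Geo3
import Pool.Agent.Run7.h680.Alg3

set_option autoImplicit false
set_option linter.unusedSectionVars false

/-!
Nonexistence of quasiregular collineation groups of type (h).
-/

namespace Run7.h680.TypeH

open Configuration Configuration.Nondegenerate
open Configuration.HasPoints (mkPoint mkPoint_ax)
open Configuration.HasLines (mkLine mkLine_ax)
open MulAction

/-- `alg_false` for a group which is only known to be commutative. -/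
theorem alg_false' {G : Type*} [inst : Group G] [Fintype G] [DecidableEq G] {ι : Type*} [Fintype ι]
    [DecidableEq ι] (hcomm : ∀ a b : G, a * b = b * a)
    (k : ℕ) (hk : 3 ≤ k) (hι : Fintype.card ι = 2 * k) (N : ι → Subgroup G)
    (hN : ∀ j, Nat.card (N j) = k ^ 2 - k + 1) (hG : Nat.card G = (k ^ 2 - k + 1) ^ 2)
    (hdisj : ∀ i j, i ≠ j → N i ⊓ N j = ⊥) (D : Finset G) (hD : D.card = (k - 1) ^ 2)
    (hD0 : ∀ g : G, g ≠ 1 → (∃ j, g ∈ N j) → (D.filter (fun b => g * b ∈ D)).card = 0)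
    (hD1 : ∀ g : G, g ≠ 1 → (¬ ∃ j, g ∈ N j) → (D.filter (fun b => g * b ∈ D)).card = 1) :
    False := by
  let cg : CommGroup G := { inst with mul_comm := hcomm }
  exact alg_false (G := G) k hk hι N hN hG hdisj D hD hD0 hD1

/-- A group with three pairwise disjoint normal subgroups of square root order is abelian. -/
lemma comm_of_three {G : Type*} [Group G] [Finite G] {m : ℕ} (hG : Nat.card G = m ^ 2)
    (A B C : Subgroup G) (hA : A.Normal) (hB : B.Normal) (hC : C.Normal)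
    (cA : Nat.card A = m) (cB : Nat.card B = m) (cC : Nat.card C = m)
    (hAB : A ⊓ B = ⊥) (hAC : A ⊓ C = ⊥) (hBC : B ⊓ C = ⊥) : ∀ a b : G, a * b = b * a := by
  have key : ∀ H K : Subgroup G, Nat.card H = m → Nat.card K = m → H ⊓ K = ⊥ →
      ∀ g : G, ∃ a ∈ H, ∃ b ∈ K, a * b = g := by
    intro H K cH cK hd g
    have hc : H.IsComplement' K := Subgroup.isComplement'_of_card_mul_and_disjoint
      (by rw [cH, cK, hG, pow_two]) (disjoint_iff.mpr hd)
    obtain ⟨⟨a, b⟩, hab⟩ := hc.2 g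
    exact ⟨a.1, a.2, b.1, b.2, hab⟩
  have cen : ∀ H K M : Subgroup G, H.Normal → K.Normal → M.Normal → Nat.card K = m →
      Nat.card M = m → H ⊓ K = ⊥ → H ⊓ M = ⊥ → K ⊓ M = ⊥ → ∀ x ∈ H, ∀ g : G, Commute x g := by
    intro H K M hH hK hM cK cM h1 h2 h3 x hx g
    obtain ⟨a, ha, b, hb, rfl⟩ := key K M cK cM h3 g
    have e1 := Subgroup.commute_of_normal_of_disjoint H K hH hK (disjoint_iff.mpr h1) x a hx ha
    have e2 := Subgroup.commute_of_normal_of_disjoint H M hH hM (disjoint_iff.mpr h2) x b hx hb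
    exact e1.mul_right e2
  intro a b
  obtain ⟨x, hx, y, hy, rfl⟩ := key A B cA cB hAB a
  have e1 := cen A B C hA hB hC cB cC hAB hAC hBC x hx b
  have e2 := cen B A C hB hA hC cA cC (by rw [inf_comm]; exact hAB) hBC hAC y hy b
  exact e1.mul_left e2

section

variable {P L G : Type*} [Membership P L] [ProjectivePlane P L] [Group G] [MulAction G P]
  [MulAction G L] [Finite P] [Finite G] {k : ℕ}

theorem Big.false (B : Big P L G k) : False := by
  classical
  have hLfin : Finite L := finite_lines P L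
  have := Fintype.ofFinite G
  obtain ⟨c, hc, hPn⟩ := B.Pn_eq
  obtain ⟨x₀, hx₀, hst⟩ := B.structure
  have hk := B.hk
  set ω₀ : orbitRel.Quotient G P := Quotient.mk'' x₀ with hω₀
  have := Fintype.ofFinite (orbitRel.Quotient G P)
  have hcl : ∀ x y : P, (Quotient.mk'' x : orbitRel.Quotient G P) = Quotient.mk'' y ↔ x ∈ orbit G y := by
    intro x y
    exact ⟨fun h => Quotient.exact' h, fun h => Quotient.sound' h⟩
  let ι := {ω : orbitRel.Quotient G P // ω ≠ ω₀}
  have hι : Fintype.card ι = 2 * k := by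
    have h1 : Fintype.card ι = Fintype.card (orbitRel.Quotient G P) - 1 := by
      have := Fintype.card_subtype_compl (fun ω : orbitRel.Quotient G P => ω = ω₀)
      rw [Fintype.card_subtype_eq] at this
      exact this
    rw [h1, ← Nat.card_eq_fintype_card, B.hΩ]
    rfl
  let rep : ι → P := fun j => Quotient.out j.1
  have hrep : ∀ j : ι, (Quotient.mk'' (rep j) : orbitRel.Quotient G P) = j.1 := fun j => Quotient.out_eq' j.1
  have hrep0 : ∀ j : ι, rep j ∉ orbit G x₀ := by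
    intro j hj
    apply j.2
    rw [← hrep j]
    exact (hcl _ _).mpr hj
  let N : ι → Subgroup G := fun j => stabilizer G (rep j)
  have hNmem : ∀ (j : ι) (g : G), g ∈ N j ↔ g • rep j = rep j := fun j g => mem_stabilizer_iff
  have hN : ∀ j, Nat.card (N j) = k ^ 2 - k + 1 := by
    intro j
    have h1 := (N j).card_mul_index
    have h2 : (N j).index = k ^ 2 - k + 1 := by
      rw [← (hst (rep j) (hrep0 j)).1]
      exact index_stabilizer G (rep j)
    rw [h2, B.hG] at h1
    exact Nat.eq_of_mul_eq_mul_right (Nat.succ_pos _) (h1.trans (pow_two _))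
  have hdisj : ∀ i j, i ≠ j → N i ⊓ N j = ⊥ := by
    intro i j hij
    rw [eq_bot_iff]
    rintro g ⟨hgi, hgj⟩
    rw [Subgroup.mem_bot]
    by_contra hg
    apply hij
    have := B.same_orbit hg ((hNmem i g).mp hgi) ((hNmem j g).mp hgj)
    apply Subtype.ext
    rw [← hrep i, ← hrep j]
    exact ((hcl _ _).mpr this).symm
  have hnormal : ∀ j, (N j).Normal := by
    intro j
    constructor
    intro g hg h
    rw [hNmem] at hg ⊢
    rw [mul_smul, mul_smul, B.H.fix_smul hg h⁻¹, smul_inv_smul]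
  have hcomm : ∀ a b : G, a * b = b * a := by
    have h3 : 2 < Fintype.card ι := by omega
    obtain ⟨i, j, l, hij, hil, hjl⟩ := Fintype.two_lt_card_iff.mp h3
    exact comm_of_three B.hG (N i) (N j) (N l) (hnormal i) (hnormal j) (hnormal l) (hN i) (hN j)
      (hN l) (hdisj i j hij) (hdisj i l hil) (hdisj j l hjl)
  -- a line with trivial stabilizer
  have hne : Nonempty ι := by
    rw [← Fintype.card_pos_iff, hι]; omega
  obtain ⟨j₀⟩ := hne
  obtain ⟨g₀, hg₀, hg₀'⟩ := (hst (rep j₀) (hrep0 j₀)).2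
  obtain ⟨ℓ₀, -, -, hreg⟩ := B.tangent hg₀ hg₀'
  have hexist : ∀ z : P, z ∉ orbit G x₀ → ∃ y ∈ orbit G z, y ∈ ℓ₀ := by
    intro z hz
    obtain ⟨g, hg, gz⟩ := (hst z hz).2
    obtain ⟨l, hzl, -, hlreg⟩ := B.tangent hg gz
    obtain ⟨h, hh⟩ := B.regular_lines hreg hlreg
    simp only at hh
    refine ⟨h⁻¹ • z, mem_orbit z _, ?_⟩
    rw [B.H.inc h, hh, smul_inv_smul]
    exact hzl
  have huniq : ∀ y y' : P, y ∉ orbit G x₀ → y ∈ ℓ₀ → y' ∈ ℓ₀ → y' ∈ orbit G y → y' = y := by
    intro y y' hy hyl hyl' hyy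
    by_contra hne
    obtain ⟨g, hg, gy⟩ := (hst y hy).2
    have gy' := B.H.qp g y y' hyy gy
    exact hg (hreg g (B.H.fix_line hne gy' gy hyl' hyl))
  -- the difference set
  let D : Finset G := Finset.univ.filter (fun g : G => g • x₀ ∈ ℓ₀)
  have hDmem : ∀ g : G, g ∈ D ↔ g • x₀ ∈ ℓ₀ := by
    intro g; simp [D]
  have hinj : ∀ a b : G, a • x₀ = b • x₀ → a = b := by
    intro a b hab
    have : b⁻¹ * a = 1 := by
      apply hx₀
      rw [mul_smul, hab, inv_smul_smul]
    rw [inv_mul_eq_one] at this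
    exact this.symm
  have hD : D.card = (k - 1) ^ 2 := by
    have h1 : {p : P | p ∈ ℓ₀}.ncard = k ^ 2 + 1 := by
      rw [← B.hord, ← ProjectivePlane.pointCount_eq P ℓ₀, pointCount]
      exact (Nat.card_coe_set_eq _).symm
    have h2 : {p : P | p ∈ ℓ₀} = {p : P | p ∈ ℓ₀ ∧ p ∈ orbit G x₀} ∪ {p : P | p ∈ ℓ₀ ∧ p ∉ orbit G x₀} := by
      ext p
      simp only [Set.mem_ofPred_eq, Set.mem_union]
      tauto
    have h3 : Disjoint {p : P | p ∈ ℓ₀ ∧ p ∈ orbit G x₀} {p : P | p ∈ ℓ₀ ∧ p ∉ orbit G x₀} := by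
      rw [Set.disjoint_left]
      rintro p ⟨-, hp⟩ ⟨-, hp'⟩
      exact hp' hp
    have h4 := Set.ncard_union_eq h3
    rw [← h2, h1] at h4
    have h5 : {p : P | p ∈ ℓ₀ ∧ p ∈ orbit G x₀}.ncard = D.card := by
      rw [← Set.ncard_coe_finset D]
      symm
      refine Set.ncard_congr (fun g _ => g • x₀) ?_ ?_ ?_
      · intro g hg
        exact ⟨(hDmem g).mp hg, mem_orbit x₀ g⟩
      · intro a b _ _ hab
        exact hinj a b hab
      · rintro p ⟨hp, g, rfl⟩
        exact ⟨g, (hDmem g).mpr hp, rfl⟩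
    have h6 : {p : P | p ∈ ℓ₀ ∧ p ∉ orbit G x₀}.ncard = 2 * k := by
      rw [← hι, ← Nat.card_eq_fintype_card, ← Nat.card_coe_set_eq]
      refine Nat.card_eq_of_bijective (fun p : {p : P | p ∈ ℓ₀ ∧ p ∉ orbit G x₀} =>
        (⟨Quotient.mk'' p.1, fun h => p.2.2 ((hcl _ _).mp h)⟩ : ι)) ⟨?_, ?_⟩
      · intro p q hpq
        have hpq' : (Quotient.mk'' p.1 : orbitRel.Quotient G P) = Quotient.mk'' q.1 :=
          congrArg Subtype.val hpq
        apply Subtype.ext
        have h7 := (hcl _ _).mp hpq'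
        exact huniq q.1 p.1 q.2.2 q.2.1 p.2.1 h7
      · intro j
        obtain ⟨y, hy, hyl⟩ := hexist (rep j) (hrep0 j)
        have hy0 : y ∉ orbit G x₀ := by
          intro h
          apply hrep0 j
          rw [← orbit_eq_iff.mpr h, orbit_eq_iff.mpr hy]
          exact mem_orbit_self _
        refine ⟨⟨y, hyl, hy0⟩, ?_⟩
        apply Subtype.ext
        simp only
        rw [← hrep j]
        exact (hcl _ _).mpr hy
    rw [h5, h6] at h4
    have h7 : (k - 1) ^ 2 + 2 * k = k ^ 2 + 1 := by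
      have : k - 1 = c + 2 := by omega
      rw [this, hc]
      ring
    omega
  have htwo : ∀ g : G, g ≠ 1 → ℓ₀ ≠ g⁻¹ • ℓ₀ := by
    intro g hg h
    apply hg
    have := hreg g⁻¹ h.symm
    rwa [inv_eq_one] at this
  have hmem : ∀ (g : G) (p : P), p ∈ g⁻¹ • ℓ₀ ↔ g • p ∈ ℓ₀ := by
    intro g p
    rw [B.H.inc g p (g⁻¹ • ℓ₀), smul_inv_smul]
  refine alg_false' hcomm k hk hι N hN B.hG hdisj D hD ?_ ?_
  · rintro g hg ⟨j, hj⟩
    rw [Finset.card_eq_zero, Finset.filter_eq_empty_iff]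
    intro b hb hgb
    rw [hDmem] at hb hgb
    rw [mul_smul] at hgb
    obtain ⟨z, hz, hzl⟩ := hexist (rep j) (hrep0 j)
    have gz : g • z = z := B.H.qp g (rep j) z hz ((hNmem j g).mp hj)
    have h1 : b • x₀ ∈ g⁻¹ • ℓ₀ := (hmem g _).mpr hgb
    have h2 : z ∈ g⁻¹ • ℓ₀ := (hmem g _).mpr (by rw [gz]; exact hzl)
    have h3 := (eq_or_eq hb hzl h1 h2).resolve_right (htwo g hg)
    have h4 : g • x₀ = x₀ := by
      have := B.H.fix_smul (p := b • x₀) (by rw [h3]; exact gz) b⁻¹
      rwa [inv_smul_smul] at this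
    exact hg (hx₀ g h4)
  · intro g hg hnj
    have hax := mkPoint_ax (P := P) (htwo g hg)
    set z : P := mkPoint (htwo g hg) with hz
    have hgz : g • z ∈ ℓ₀ := (hmem g z).mp hax.2
    have hzo : z ∈ orbit G x₀ := by
      by_contra hz0
      apply hnj
      have h1 : g • z = z := huniq z (g • z) hz0 hax.1 hgz (mem_orbit z g)
      refine ⟨⟨Quotient.mk'' z, fun h => hz0 ((hcl _ _).mp h)⟩, ?_⟩
      rw [hNmem]
      apply B.H.qp g z _ _ h1
      rw [← hcl, hrep]
    obtain ⟨b, hb⟩ := hzo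
    simp only at hb
    rw [Finset.card_eq_one]
    refine ⟨b, ?_⟩
    ext b'
    rw [Finset.mem_filter, Finset.mem_singleton, hDmem, hDmem, mul_smul]
    constructor
    · rintro ⟨h1, h2⟩
      have h3 : b' • x₀ ∈ g⁻¹ • ℓ₀ := (hmem g _).mpr h2
      have h4 := (eq_or_eq h1 hax.1 h3 hax.2).resolve_right (htwo g hg)
      exact hinj b' b (h4.trans hb.symm)
    · rintro rfl
      rw [hb]
      exact ⟨hax.1, hgz⟩

end

end Run7.h680.TypeH
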