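import Mathlib
import Pool.Agent.Run7.h680.SDB
import Pool.Agent.R865.DS.C
import Pool.Agent.R865.DS.G

set_option autoImplicit false

namespace Pool.Agent.Run7.h680.SD
open Finset Pool.Agent.R865.DS

theorem F_small {n m : ℕ} [NeZero n] (hm : m < n.minFac) :
    ∃ α : ℂ, ∀ z : ZMod n, (F n m z : ℂ) = α + (-1) ^ m * (if z = 0 then 1 else 0) := by
  have hn0 : n ≠ 0 := NeZero.ne n
  have hnC : (n : ℂ) ≠ 0 := by exact_mod_cast hn0
  set α : ℂ := (((n - 1).choose m : ℂ) - (-1) ^ m) / (n : ℂ) with hα
  refine ⟨α, ?_⟩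
  have hfun : (fun z : ZMod n => (F n m z : ℂ)) = (fun z =>
      α + (-1) ^ m * (if z = 0 then 1 else 0)) := by
    apply dft_inj
    intro e
    have h0 : ∑ z : ZMod n, (if z = 0 then (1 : ℂ) else 0) * e z = 1 := by
      rw [Finset.sum_eq_single (0 : ZMod n)]
      · simp
      · intro b _ hb; simp [hb]
      · intro h; exact absurd (Finset.mem_univ _) h
    have hR : ∑ z, (α + (-1) ^ m * (if z = 0 then 1 else 0)) * e z =
        α * ∑ z, e z + (-1) ^ m * ∑ z : ZMod n, (if z = 0 then (1 : ℂ) else 0) * e z := by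
      rw [Finset.mul_sum, Finset.mul_sum, ← Finset.sum_add_distrib]
      refine Finset.sum_congr rfl fun z _ => ?_
      ring
    rw [hR, h0]
    obtain ⟨q, hq, hζ, he⟩ := char_root e
    have hq0 : 0 < q := Nat.pos_of_dvd_of_pos hq (Nat.pos_of_ne_zero hn0)
    have : NeZero q := ⟨hq0.ne'⟩
    have hf := fourier (N := n / q) (Nat.div_pos (Nat.le_of_dvd (Nat.pos_of_ne_zero hn0) hq) hq0)
      (Nat.div_mul_cancel hq).symm hq hζ e (fun y => he y) m
    rw [hf]
    rcases Nat.eq_or_lt_of_le (Nat.succ_le_of_lt hq0) with h1 | h1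
    · have hq1 : q = 1 := h1.symm
      subst hq1
      have h1 : e 1 = 1 := by
        have := hζ.pow_eq_one
        simpa using this
      have hez : ∀ z, e z = 1 := by
        intro z
        rw [he z, h1, one_pow]
      simp only [hez, Finset.sum_const, Finset.card_univ, ZMod.card,
        Nat.mod_one, Nat.div_one]
      rw [hα]
      simp only [nsmul_eq_mul, mul_one]
      field_simp
      norm_num
    · have hqm : m < q := lt_of_lt_of_le hm (Nat.minFac_le_of_dvd (by omega) hq)
      have hne1 : ∑ z, e z = 0 := by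
        apply AddChar.sum_eq_zero_of_ne_one
        intro h
        have h2 : e 1 = 1 := by rw [h]; rfl
        rw [h2] at hζ
        have := (IsPrimitiveRoot.one).unique hζ
        omega
      rw [hne1, Nat.mod_eq_of_lt hqm, Nat.div_eq_of_lt hqm]
      simp
  intro z
  exact congrFun hfun z

theorem R_small {n : ℕ} [NeZero n] {k : ℕ} (hk : k ≤ n.minFac) :
    ∃ A : ℂ, ∀ x y : ZMod n, y ≠ 0 → (R n k y x : ℂ) =
      A + (-1) ^ (k - 1) * (((range k).filter (fun i => x = ((i + 1 : ℕ) : ZMod n) * y)).card : ℂ) := by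
  have hF := fun (m : ℕ) (hm : m < n.minFac) => F_small hm
  choose! α hα using hF
  refine ⟨∑ i ∈ range k, (-1) ^ i * α (k - 1 - i), ?_⟩
  intro x y hy
  have hc : (((range k).filter (fun i => x = ((i + 1 : ℕ) : ZMod n) * y)).card : ℂ) =
      ∑ i ∈ range k, (if x = ((i + 1 : ℕ) : ZMod n) * y then 1 else 0) := by
    rw [← Finset.sum_filter, Finset.sum_const, nsmul_eq_mul, mul_one]
  rw [R_eq hy, hc, Finset.mul_sum, ← Finset.sum_add_distrib]
  refine Finset.sum_congr rfl fun i hi => ?_
  have hi' := Finset.mem_range.1 hi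
  rw [hα (k - 1 - i) (by omega)]
  have hs : (-1 : ℂ) ^ (k - 1) = (-1) ^ i * (-1) ^ (k - 1 - i) := by
    rw [← pow_add]; congr 1; omega
  rw [hs]
  simp only [sub_eq_zero]
  ring

/-- small `k`: every nonzero element lies in the same number of blocks only for `x = 0` -/
theorem small_iff {n : ℕ} [NeZero n] (hn : 1 < n) (hc : ¬ n.Prime) {k : ℕ} (hk1 : 1 ≤ k)
    (hk : k < n.minFac) (x : ZMod n) :
    (∃ r : ℕ, ∀ y : ZMod n, y ≠ 0 → R n k y x = r) ↔ x = 0 := by
  obtain ⟨A, hA⟩ := R_small (n := n) hk.le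
  have hq := Nat.minFac_prime (show n ≠ 1 by omega)
  have hs : ((-1 : ℂ) ^ (k - 1)) ≠ 0 := pow_ne_zero _ (by norm_num)
  -- a natural number below the least prime factor is coprime to `n`
  have hcop : ∀ j : ℕ, 1 ≤ j → j < n.minFac → Nat.Coprime j n := by
    intro j hj1 hj2
    by_contra hcon
    obtain ⟨l, hl, hlj, hln⟩ := Nat.Prime.not_coprime_iff_dvd.1 hcon
    have h1 := Nat.minFac_le_of_dvd hl.two_le hln
    have h2 := Nat.le_of_dvd (by omega) hlj
    omega
  have hunit : ∀ j : ℕ, 1 ≤ j → j < n.minFac → IsUnit ((j : ℕ) : ZMod n) := by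
    intro j hj1 hj2
    exact (ZMod.isUnit_iff_coprime j n).2 (hcop j hj1 hj2)
  constructor
  · rintro ⟨r, hr⟩
    by_contra hx
    -- the count at `y = x` is positive
    have hcnt : ∀ y z : ZMod n, y ≠ 0 → z ≠ 0 →
        ((range k).filter (fun i => x = ((i + 1 : ℕ) : ZMod n) * y)).card =
        ((range k).filter (fun i => x = ((i + 1 : ℕ) : ZMod n) * z)).card := by
      intro y z hy hz
      have h1 := hA x y hy
      have h2 := hA x z hz
      rw [hr y hy] at h1
      rw [hr z hz, h1] at h2
      have h3 := mul_left_cancel₀ hs (add_left_cancel h2)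
      exact_mod_cast h3
    have hpos : 0 < ((range k).filter (fun i => x = ((i + 1 : ℕ) : ZMod n) * x)).card :=
      Finset.card_pos.2 ⟨0, by simp; omega⟩
    by_cases hxu : IsUnit x
    · -- take y of order q
      have hdvd := Nat.minFac_dvd n
      have hlt : n.minFac < n := by
        rcases Nat.lt_or_ge n.minFac n with h | h
        · exact h
        · exfalso
          have h2 := Nat.le_of_dvd (by omega) hdvd
          have h3 : n.minFac = n := le_antisymm h2 h
          rw [h3] at hq
          exact hc hq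
      have hy : ((n.minFac : ℕ) : ZMod n) ≠ 0 := by
        intro h
        rw [ZMod.natCast_eq_zero_iff] at h
        have := Nat.le_of_dvd hq.pos h
        omega
      have h4 := hcnt x _ hx hy
      rw [h4] at hpos
      obtain ⟨i, hi⟩ := Finset.card_pos.1 hpos
      have h5 := (Finset.mem_filter.1 hi).2
      rw [← Nat.cast_mul] at h5
      rw [h5, ZMod.isUnit_iff_coprime] at hxu
      have h6 : n.minFac ∣ Nat.gcd ((i + 1) * n.minFac) n := Nat.dvd_gcd (dvd_mul_left _ _) hdvd
      rw [hxu] at h6
      exact hq.one_lt.ne' (Nat.dvd_one.1 h6)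
    · -- take y = 1
      have hy : (1 : ZMod n) ≠ 0 := by
        intro h
        have : ((1 : ℕ) : ZMod n) = 0 := by rw [Nat.cast_one]; exact h
        rw [ZMod.natCast_eq_zero_iff] at this
        have := Nat.dvd_one.1 this
        omega
      have h4 := hcnt x 1 hx hy
      rw [h4] at hpos
      obtain ⟨i, hi⟩ := Finset.card_pos.1 hpos
      have h5 := Finset.mem_filter.1 hi
      have h6 := h5.2
      rw [mul_one] at h6
      apply hxu
      rw [h6]
      have := Finset.mem_range.1 h5.1
      exact hunit (i + 1) (by omega) (by omega)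
  · rintro rfl
    have hz : ∀ y : ZMod n, y ≠ 0 →
        ((range k).filter (fun i => (0 : ZMod n) = ((i + 1 : ℕ) : ZMod n) * y)).card = 0 := by
      intro y hy
      rw [Finset.card_eq_zero, Finset.filter_eq_empty_iff]
      intro i hi h
      have hi' := Finset.mem_range.1 hi
      exact hy (((hunit (i + 1) (by omega) (by omega)).mul_right_eq_zero).1 h.symm)
    have hone : (1 : ZMod n) ≠ 0 := by
      intro h
      have : ((1 : ℕ) : ZMod n) = 0 := by rw [Nat.cast_one]; exact h
      rw [ZMod.natCast_eq_zero_iff] at this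
      have := Nat.dvd_one.1 this
      omega
    refine ⟨R n k 1 0, fun y hy => ?_⟩
    have h1 := hA 0 y hy
    have h2 := hA 0 1 hone
    rw [hz y hy] at h1
    rw [hz 1 hone, ← h1] at h2
    exact_mod_cast h2.symm

end Pool.Agent.Run7.h680.SD
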